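import Mathlib

/-!
# Marshall Hall's theorem (1952) on zero-sum sequences in finite abelian groups
-/

set_option autoImplicit false

open Finset

namespace Pool.Agent.H57.SS

/-- A map into a finite abelian group of the right cardinality which is injective away from one
point and has the right sum is bijective. -/
theorem bijective_of_sum {ι A : Type*} [Fintype ι] [DecidableEq ι] [AddCommGroup A] [Fintype A]
    [DecidableEq A] (hc : Fintype.card ι = Fintype.card A) (f : ι → A) (j : ι)
    (hinj : ∀ k l, k ≠ j → l ≠ j → f k = f l → k = l) (hsum : ∑ k, f k = ∑ x : A, x) :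
    Function.Bijective f := by
  rw [Fintype.bijective_iff_injective_and_card]
  refine ⟨?_, hc⟩
  -- the image of the complement of j
  set S : Finset A := (univ.erase j).image f with hS
  have hScard : S.card = Fintype.card A - 1 := by
    rw [hS, card_image_of_injOn, card_erase_of_mem (mem_univ j), card_univ, hc]
    intro k hk l hl h
    simp only [coe_erase, Set.mem_sdiff, Set.mem_singleton_iff] at hk hl
    exact hinj k l hk.2 hl.2 h
  have hpos : 0 < Fintype.card A := Fintype.card_pos_iff.2 ⟨0⟩
  have hcompl : (univ \ S).card = 1 := by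
    rw [card_sdiff_of_subset (subset_univ S), card_univ, hScard]; omega
  obtain ⟨y, hy⟩ := card_eq_one.1 hcompl
  have hsumS : ∑ k ∈ univ.erase j, f k = ∑ x ∈ S, x := by
    rw [hS, sum_image]
    intro k hk l hl h
    simp only [coe_erase, Set.mem_sdiff, Set.mem_singleton_iff] at hk hl
    exact hinj k l hk.2 hl.2 h
  have h1 : f j + ∑ x ∈ S, x = y + ∑ x ∈ S, x := by
    have e1 : f j + ∑ k ∈ univ.erase j, f k = ∑ x : A, x := by
      rw [add_sum_erase univ f (mem_univ j), hsum]
    have e2 : ∑ x ∈ univ \ S, x + ∑ x ∈ S, x = ∑ x : A, x := sum_sdiff (subset_univ S)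
    rw [hy, sum_singleton] at e2
    rw [← hsumS, e1, ← e2, hsumS]
  have hfj : f j = y := add_right_cancel h1
  have hyS : y ∉ S := by
    have : y ∈ univ \ S := by rw [hy]; simp
    exact (mem_sdiff.1 this).2
  intro k l hkl
  by_cases hk : k = j
  · by_cases hl : l = j
    · rw [hk, hl]
    · exfalso
      apply hyS
      rw [← hfj, ← hk, hkl, hS]
      exact mem_image_of_mem _ (mem_erase.2 ⟨hl, mem_univ _⟩)
  · by_cases hl : l = j
    · exfalso
      apply hyS
      rw [← hfj, ← hl, ← hkl, hS]
      exact mem_image_of_mem _ (mem_erase.2 ⟨hk, mem_univ _⟩)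
    · exact hinj k l hk hl hkl

/-- One step of Hall's algorithm: changing two entries of a realizable sequence, keeping the sum. -/
theorem hall_step {ι A : Type*} [Fintype ι] [DecidableEq ι] [AddCommGroup A] [Fintype A]
    [DecidableEq A] (b b' : ι → A) (i j : ι) (hij : i ≠ j)
    (hb' : ∀ k, k ≠ i → k ≠ j → b' k = b k) (hsum : ∑ k, b' k = ∑ k, b k)
    (h : ∃ a : ι → A, Function.Bijective a ∧ Function.Bijective (fun k => a k + b k)) :
    ∃ a : ι → A, Function.Bijective a ∧ Function.Bijective (fun k => a k + b' k) := by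
  obtain ⟨a₀, ha₀, hc₀⟩ := h
  set a : ι ≃ A := Equiv.ofBijective a₀ ha₀ with ha
  set c : ι ≃ A := Equiv.ofBijective _ hc₀ with hc
  have hac : ∀ k, c k = a k + b k := fun k => rfl
  set s : A := (a i + b' i) + a j with hs
  set π : Equiv.Perm A := (Equiv.subLeft s).trans (c.symm.trans a) with hπ
  have hπa : ∀ t, π t = a (c.symm (s - t)) := fun t => rfl
  set t0 : A := a j with ht0
  -- existence of the stopping time
  have hex : ∃ m : ℕ, c.symm (s - (π ^ m) t0) = i ∨ c.symm (s - (π ^ m) t0) = j := by
    have ho : 0 < orderOf π := orderOf_pos π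
    refine ⟨orderOf π - 1, Or.inr ?_⟩
    have h1 : π ((π ^ (orderOf π - 1)) t0) = t0 := by
      rw [← Equiv.Perm.mul_apply, ← pow_succ', Nat.sub_add_cancel ho, pow_orderOf_eq_one]
      rfl
    rw [hπa] at h1
    exact a.injective h1
  set m := Nat.find hex with hm
  have hmspec := Nat.find_spec hex
  have hmmin : ∀ q, q < m → c.symm (s - (π ^ q) t0) ≠ i ∧ c.symm (s - (π ^ q) t0) ≠ j := by
    intro q hq
    have := Nat.find_min hex hq
    push Not at this
    exact this
  -- t_{q+1} = a (c.symm (s - t_q))
  have htsucc : ∀ q, (π ^ (q + 1)) t0 = a (c.symm (s - (π ^ q) t0)) := by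
    intro q
    rw [pow_succ', Equiv.Perm.mul_apply, hπa]
  -- no return
  have hne0 : ∀ q, 1 ≤ q → q ≤ m → (π ^ q) t0 ≠ t0 := by
    intro q hq1 hqm heq
    obtain ⟨q', rfl⟩ : ∃ q', q = q' + 1 := ⟨q - 1, by omega⟩
    rw [htsucc] at heq
    exact (hmmin q' (by omega)).2 (a.injective heq)
  have hdist : ∀ q q', q < q' → q' ≤ m + 1 → (1 ≤ q ∨ q' ≤ m) → (π ^ q) t0 ≠ (π ^ q') t0 := by
    intro q q' hqq hq' hor heq
    have h2 : (π ^ (q' - q)) t0 = t0 := by
      have : (π ^ q') t0 = (π ^ q) ((π ^ (q' - q)) t0) := by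
        rw [← Equiv.Perm.mul_apply, ← pow_add]; congr 2; omega
      rw [this] at heq
      exact ((π ^ q).injective heq).symm
    exact hne0 (q' - q) (by omega) (by omega) h2
  -- touched rows
  classical
  let T : Finset ι := univ.filter (fun k => ∃ q, 1 ≤ q ∧ q ≤ m ∧ a k = (π ^ q) t0)
  have hT : ∀ k, k ∈ T ↔ ∃ q, 1 ≤ q ∧ q ≤ m ∧ a k = (π ^ q) t0 := by
    intro k; simp [T]
  have hTj : j ∉ T := by
    rw [hT]; rintro ⟨q, h1, h2, h3⟩; exact hne0 q h1 h2 h3.symm
  have hTi : i ∉ T := by
    rw [hT]; rintro ⟨q, h1, h2, h3⟩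
    obtain ⟨q', rfl⟩ : ∃ q', q = q' + 1 := ⟨q - 1, by omega⟩
    rw [htsucc] at h3
    exact (hmmin q' (by omega)).1 (a.injective h3).symm
  -- c on touched rows
  have hcT : ∀ k, ∀ q, q < m → a k = (π ^ (q + 1)) t0 → c k = s - (π ^ q) t0 := by
    intro k q hq hk
    rw [htsucc] at hk
    rw [a.injective hk, Equiv.apply_symm_apply]
  let a' : ι → A := fun k => if k = j then (π ^ m) t0 else if k ∈ T then π.symm (a k) else a k
  have ha'j : a' j = (π ^ m) t0 := by simp [a']
  have ha'T : ∀ k, k ∈ T → a' k = π.symm (a k) := by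
    intro k hk
    have : k ≠ j := fun h => hTj (h ▸ hk)
    simp [a', this, hk]
  have ha'o : ∀ k, k ≠ j → k ∉ T → a' k = a k := by
    intro k hk hk'; simp [a', hk, hk']
  have hsymm : ∀ q, π.symm ((π ^ (q + 1)) t0) = (π ^ q) t0 := by
    intro q; rw [pow_succ', Equiv.Perm.mul_apply, Equiv.symm_apply_apply]
  have ha'T' : ∀ k ∈ T, ∃ q, q < m ∧ a k = (π ^ (q + 1)) t0 ∧ a' k = (π ^ q) t0 := by
    intro k hk
    obtain ⟨q, h1, h2, h3⟩ := (hT k).1 hk
    obtain ⟨q', rfl⟩ : ∃ q', q = q' + 1 := ⟨q - 1, by omega⟩
    exact ⟨q', by omega, h3, by rw [ha'T k hk, h3, hsymm]⟩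
  have hcard : Fintype.card ι = Fintype.card A := Fintype.card_congr a
  have ha'inj : Function.Injective a' := by
    have key : ∀ k l, a' k = a' l → k ∈ T → l ∈ T → k = l := by
      intro k l h hk hl
      rw [ha'T k hk, ha'T l hl] at h
      exact a.injective (π.symm.injective h)
    have key2 : ∀ k l, a' k = a' l → k ∈ T → l ∉ T → False := by
      intro k l h hk hl
      obtain ⟨q, hq, h3, h4⟩ := ha'T' k hk
      rw [h4] at h
      by_cases hlj : l = j
      · rw [hlj, ha'j] at h
        exact hdist q m hq (by omega) (Or.inr le_rfl) h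
      · rw [ha'o l hlj hl] at h
        rcases Nat.eq_zero_or_pos q with rfl | hq0
        · rw [pow_zero, Equiv.Perm.one_apply] at h
          exact hlj (a.injective h.symm)
        · exact hl ((hT l).2 ⟨q, hq0, by omega, h.symm⟩)
    have key3 : ∀ l, l ≠ j → l ∉ T → a' j = a' l → False := by
      intro l hlj hl h
      rw [ha'j, ha'o l hlj hl] at h
      rcases Nat.eq_zero_or_pos m with hm0 | hm0
      · rw [hm0, pow_zero, Equiv.Perm.one_apply] at h
        exact hlj (a.injective h.symm)
      · exact hl ((hT l).2 ⟨m, hm0, le_rfl, h.symm⟩)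
    intro k l h
    by_cases hk : k ∈ T
    · by_cases hl : l ∈ T
      · exact key k l h hk hl
      · exact (key2 k l h hk hl).elim
    · by_cases hl : l ∈ T
      · exact (key2 l k h.symm hl hk).elim
      · by_cases hkj : k = j
        · by_cases hlj : l = j
          · rw [hkj, hlj]
          · exact (key3 l hlj hl (hkj ▸ h)).elim
        · by_cases hlj : l = j
          · exact (key3 k hkj hk (hlj ▸ h.symm)).elim
          · rw [ha'o k hkj hk, ha'o l hlj hl] at h
            exact a.injective h
  have ha'bij : Function.Bijective a' := by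
    rw [Fintype.bijective_iff_injective_and_card]; exact ⟨ha'inj, hcard⟩
  refine ⟨a', ha'bij, ?_⟩
  -- the values of c'
  have hci : a' i + b' i = s - t0 := by
    rw [ha'o i hij hTi, hs]; abel
  have hcT' : ∀ k ∈ T, a' k + b' k = s - a k := by
    intro k hk
    obtain ⟨q, hq, h3, h4⟩ := ha'T' k hk
    have hki : k ≠ i := fun h => hTi (h ▸ hk)
    have hkj : k ≠ j := fun h => hTj (h ▸ hk)
    have h5 := hcT k q hq h3
    rw [hac] at h5
    rw [hb' k hki hkj, h4]
    have h6 : b k = s - (π ^ q) t0 - a k := by rw [← h5]; abel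
    rw [h6]; abel
  have hco : ∀ k, k ≠ i → k ≠ j → k ∉ T → a' k + b' k = c k := by
    intro k hki hkj hk
    rw [ha'o k hkj hk, hb' k hki hkj, hac]
  -- s - t_q is not a value of an untouched row
  have hunt : ∀ k, k ≠ i → k ≠ j → k ∉ T → ∀ q, q ≤ m → c k ≠ s - (π ^ q) t0 := by
    intro k hki hkj hk q hq heq
    have h7 : k = c.symm (s - (π ^ q) t0) := by rw [← heq, Equiv.symm_apply_apply]
    rcases Nat.lt_or_eq_of_le hq with hlt | heq'
    · apply hk
      rw [hT]
      refine ⟨q + 1, by omega, by omega, ?_⟩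
      rw [htsucc, ← h7]
    · rcases hmspec with h8 | h8
      · apply hki; rw [h7, heq']; exact h8
      · apply hkj; rw [h7, heq']; exact h8
  refine bijective_of_sum hcard _ j ?_ ?_
  · have keyA : ∀ l, l ≠ i → l ≠ j → a' i + b' i = a' l + b' l → False := by
      intro l hli hlj h
      rw [hci] at h
      by_cases hl : l ∈ T
      · rw [hcT' l hl] at h
        have h9 : a l = t0 := by
          have := sub_right_injective h
          exact this.symm
        exact hlj (a.injective h9)
      · rw [hco l hli hlj hl] at h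
        exact hunt l hli hlj hl 0 (Nat.zero_le _) (by simpa using h.symm)
    have keyB : ∀ k l, k ≠ i → k ≠ j → l ≠ i → l ≠ j → k ∈ T → l ∉ T →
        a' k + b' k = a' l + b' l → False := by
      intro k l hki hkj hli hlj hk hl h
      rw [hcT' k hk, hco l hli hlj hl] at h
      obtain ⟨q, h1, h2, h3⟩ := (hT k).1 hk
      rw [h3] at h
      exact hunt l hli hlj hl q h2 h.symm
    intro k l hkj hlj h
    by_cases hki : k = i
    · by_cases hli : l = i
      · rw [hki, hli]
      · exact (keyA l hli hlj (by rw [← hki]; exact h)).elim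
    · by_cases hli : l = i
      · exact (keyA k hki hkj (by rw [← hli]; exact h.symm)).elim
      · by_cases hk : k ∈ T
        · by_cases hl : l ∈ T
          · simp only [hcT' k hk, hcT' l hl] at h
            exact a.injective (sub_right_injective h)
          · exact (keyB k l hki hkj hli hlj hk hl h).elim
        · by_cases hl : l ∈ T
          · exact (keyB l k hli hlj hki hkj hl hk h.symm).elim
          · simp only [hco k hki hkj hk, hco l hli hlj hl] at h
            exact c.injective h
  · have h10 : ∑ k, a' k = ∑ x : A, x := ha'bij.sum_comp (fun x => x)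
    have h11 : ∑ k, a k = ∑ x : A, x := a.bijective.sum_comp (fun x => x)
    have h12 : ∑ k, c k = ∑ x : A, x := c.bijective.sum_comp (fun x => x)
    have h13 : ∑ k, (a k + b k) = ∑ k, c k := sum_congr rfl (fun k _ => (hac k).symm)
    calc ∑ k, (a' k + b' k) = ∑ k, a' k + ∑ k, b' k := sum_add_distrib
      _ = ∑ k, a k + ∑ k, b k := by rw [h10, h11, hsum]
      _ = ∑ k, (a k + b k) := sum_add_distrib.symm
      _ = ∑ k, c k := h13
      _ = ∑ x : A, x := h12

/-- **M. Hall's theorem** (1952). -/
theorem hall_zero_sum {ι A : Type*} [Fintype ι] [AddCommGroup A] [Fintype A]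
    (hc : Fintype.card ι = Fintype.card A) (b : ι → A) (hb : ∑ k, b k = 0) :
    ∃ a : ι → A, Function.Bijective a ∧ Function.Bijective (fun k => a k + b k) := by
  classical
  induction hN : (univ.filter (fun k => b k ≠ 0)).card using Nat.strong_induction_on
    generalizing b with
  | _ N IH =>
    subst hN
    by_cases hz : ∀ k, b k = 0
    · have e : ι ≃ A := Fintype.equivOfCardEq hc
      refine ⟨e, e.bijective, ?_⟩
      simp [hz]
    · push Not at hz
      obtain ⟨i, hi⟩ := hz
      have hj : ∃ j, j ≠ i ∧ b j ≠ 0 := by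
        by_contra hcon
        push Not at hcon
        rw [sum_eq_single i (fun k _ hk => hcon k hk) (by simp)] at hb
        exact hi hb
      obtain ⟨j, hji, hj⟩ := hj
      let b₁ : ι → A := Function.update (Function.update b i 0) j (b j + b i)
      have hb₁i : b₁ i = 0 := by simp [b₁, Function.update_of_ne hji.symm]
      have hb₁j : b₁ j = b j + b i := by simp [b₁]
      have hb₁o : ∀ k, k ≠ i → k ≠ j → b₁ k = b k := by
        intro k hki hkj; simp [b₁, hki, hkj]
      have hsum : ∑ k, b₁ k = ∑ k, b k := by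
        rw [← add_sum_erase univ b₁ (mem_univ i), ← add_sum_erase univ b (mem_univ i),
          ← add_sum_erase _ b₁ (mem_erase.2 ⟨hji, mem_univ j⟩),
          ← add_sum_erase _ b (mem_erase.2 ⟨hji, mem_univ j⟩), hb₁i, hb₁j]
        have : ∑ x ∈ (univ.erase i).erase j, b₁ x = ∑ x ∈ (univ.erase i).erase j, b x := by
          apply sum_congr rfl
          intro k hk
          simp only [mem_erase, mem_univ, and_true] at hk
          exact hb₁o k hk.2 hk.1
        rw [this]; abel
      have hlt : (univ.filter (fun k => b₁ k ≠ 0)).card < (univ.filter (fun k => b k ≠ 0)).card := by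
        apply card_lt_card
        refine ⟨?_, ?_⟩
        · intro k hk
          simp only [mem_filter, mem_univ, true_and] at hk ⊢
          by_cases hki : k = i
          · rw [hki]; exact hi
          · by_cases hkj : k = j
            · rw [hkj]; exact hj
            · rwa [hb₁o k hki hkj] at hk
        · intro hsub
          have := hsub (show i ∈ univ.filter (fun k => b k ≠ 0) by simp [hi])
          simp [hb₁i] at this
      have h₁ := IH _ hlt b₁ (by rw [hsum, hb]) rfl
      exact hall_step b₁ b i j hji.symm (fun k hki hkj => (hb₁o k hki hkj).symm) hsum.symm h₁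

end Pool.Agent.H57.SS
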