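import Mathlib
import Pool.Agent.H57.SS.Hall

/-!
# Labelings of rooted trees, given by their parent function, in groups of exponent two
-/

set_option autoImplicit false

open Finset

namespace Pool.Agent.H57.SS

variable {V : Type*} [DecidableEq V]

/-- All fibres of `p` on `X` have even size. -/
def EvenFib (p : V → V) (X : Finset V) : Prop := ∀ w, Even (X.filter (fun v => p v = w)).card

theorem EvenFib.sdiff {p : V → V} {X Y : Finset V} (hX : EvenFib p X) (hY : EvenFib p Y)
    (h : Y ⊆ X) : EvenFib p (X \ Y) := by
  intro w
  have h1 : (X \ Y).filter (fun v => p v = w)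
      = X.filter (fun v => p v = w) \ Y.filter (fun v => p v = w) := by
    ext v; simp only [mem_filter, mem_sdiff]; tauto
  have h2 : Y.filter (fun v => p v = w) ⊆ X.filter (fun v => p v = w) :=
    filter_subset_filter _ h
  rw [h1, card_sdiff_of_subset h2]
  have h3 := card_le_card h2
  obtain ⟨a, ha⟩ := hX w
  obtain ⟨b, hb⟩ := hY w
  exact ⟨a - b, by omega⟩

theorem EvenFib.union {p : V → V} {X Y : Finset V} (hX : EvenFib p X) (hY : EvenFib p Y)
    (h : Disjoint X Y) : EvenFib p (X ∪ Y) := by
  intro w
  rw [filter_union, card_union_of_disjoint (disjoint_filter_filter h)]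
  exact (hX w).add (hY w)

theorem evenFib_pair {p : V → V} {v v' : V} (hne : v ≠ v') (hp : p v = p v') :
    EvenFib p {v, v'} := by
  intro w
  by_cases h : p v = w
  · have : ({v, v'} : Finset V).filter (fun u => p u = w) = {v, v'} := by
      apply filter_true_of_mem
      intro u hu
      simp only [mem_insert, mem_singleton] at hu
      rcases hu with rfl | rfl
      · exact h
      · exact hp ▸ h
    rw [this, card_pair hne]; exact even_two
  · have : ({v, v'} : Finset V).filter (fun u => p u = w) = ∅ := by
      apply filter_false_of_mem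
      intro u hu
      simp only [mem_insert, mem_singleton] at hu
      rcases hu with rfl | rfl
      · exact h
      · exact hp ▸ h
    rw [this]; simp

theorem exists_mate {p : V → V} {X : Finset V} (hX : EvenFib p X) {v : V} (hv : v ∈ X) :
    ∃ v' ∈ X, v' ≠ v ∧ p v' = p v := by
  have h1 : v ∈ X.filter (fun u => p u = p v) := by simp [hv]
  have h2 : 1 < (X.filter (fun u => p u = p v)).card := by
    have h3 : 0 < (X.filter (fun u => p u = p v)).card := card_pos.2 ⟨v, h1⟩
    rcases (hX (p v)) with ⟨k, hk⟩
    omega
  obtain ⟨v', hv', hne⟩ := exists_mem_ne h2 v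
  rw [mem_filter] at hv'
  exact ⟨v', hv'.1, hne, hv'.2⟩

theorem exists_evenFib_subset {p : V → V} {X : Finset V} (hX : EvenFib p X) (k : ℕ)
    (hk : 2 * k ≤ X.card) : ∃ Y ⊆ X, Y.card = 2 * k ∧ EvenFib p Y := by
  induction k with
  | zero => exact ⟨∅, empty_subset _, by simp, fun w => by simp⟩
  | succ k ih =>
    obtain ⟨Y, hYX, hYc, hY⟩ := ih (by omega)
    have hd := hX.sdiff hY hYX
    have hne : (X \ Y).Nonempty := by
      rw [← card_pos, card_sdiff_of_subset hYX]; omega
    obtain ⟨v, hv⟩ := hne
    obtain ⟨v', hv', hvv', hpv⟩ := exists_mate hd hv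
    rw [mem_sdiff] at hv hv'
    refine ⟨Y ∪ {v, v'}, ?_, ?_, ?_⟩
    · intro u hu
      simp only [mem_union, mem_insert, mem_singleton] at hu
      rcases hu with hu | rfl | rfl
      · exact hYX hu
      · exact hv.1
      · exact hv'.1
    · rw [card_union_of_disjoint, hYc, card_pair hvv'.symm]
      · ring
      · rw [Finset.disjoint_left]
        intro u hu hu'
        simp only [mem_insert, mem_singleton] at hu'
        rcases hu' with rfl | rfl
        · exact hv.2 hu
        · exact hv'.2 hu
    · apply hY.union (evenFib_pair hvv'.symm hpv.symm)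
      rw [Finset.disjoint_left]
      intro u hu hu'
      simp only [mem_insert, mem_singleton] at hu'
      rcases hu' with rfl | rfl
      · exact hv.2 hu
      · exact hv'.2 hu

theorem EvenFib.card_even {p : V → V} {X : Finset V} (hX : EvenFib p X) : Even X.card := by
  rw [card_eq_sum_card_image p X]
  exact Finset.even_sum _ (fun w _ => hX w)

theorem exists_partition {Q : Type*} [DecidableEq Q] [Inhabited Q] {p : V → V} {N : ℕ}
    (hN : Even N) (K : Finset Q) : ∀ U : Finset V, EvenFib p U → U.card = K.card * N →
    ∃ c : V → Q, (∀ v ∈ U, c v ∈ K) ∧ ∀ q ∈ K, (U.filter (fun v => c v = q)).card = N ∧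
      EvenFib p (U.filter (fun v => c v = q)) := by
  induction K using Finset.induction_on with
  | empty =>
    intro U hU hc
    simp only [card_empty, zero_mul, card_eq_zero] at hc
    subst hc
    exact ⟨fun _ => default, by simp, by simp⟩
  | insert q K hq ih =>
    intro U hU hc
    rw [card_insert_of_notMem hq, add_mul, one_mul] at hc
    obtain ⟨k, hk⟩ := hN
    obtain ⟨Y, hYU, hYc, hY⟩ := exists_evenFib_subset hU k (by omega)
    obtain ⟨c, hc1, hc2⟩ := ih (U \ Y) (hU.sdiff hY hYU)
      (by rw [card_sdiff_of_subset hYU]; omega)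
    refine ⟨fun v => if v ∈ Y then q else c v, ?_, ?_⟩
    · intro v hv
      by_cases hvY : v ∈ Y
      · simp [hvY]
      · simp only [hvY, if_false]
        exact mem_insert_of_mem (hc1 v (mem_sdiff.2 ⟨hv, hvY⟩))
    · intro q' hq'
      rw [mem_insert] at hq'
      rcases hq' with rfl | hq'
      · have : U.filter (fun v => (if v ∈ Y then q' else c v) = q') = Y := by
          ext v
          simp only [mem_filter]
          constructor
          · rintro ⟨hv, h⟩
            by_contra hvY
            simp only [hvY, if_false] at h
            exact hq (h ▸ hc1 v (mem_sdiff.2 ⟨hv, hvY⟩))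
          · intro hv
            exact ⟨hYU hv, by simp [hv]⟩
        rw [this]
        exact ⟨by omega, hY⟩
      · have : U.filter (fun v => (if v ∈ Y then q else c v) = q')
            = (U \ Y).filter (fun v => c v = q') := by
          ext v
          simp only [mem_filter, mem_sdiff]
          constructor
          · rintro ⟨hv, h⟩
            by_cases hvY : v ∈ Y
            · simp only [hvY, if_true] at h
              exact (hq (h ▸ hq')).elim
            · simp only [hvY, if_false] at h
              exact ⟨⟨hv, hvY⟩, h⟩
          · rintro ⟨⟨hv, hvY⟩, h⟩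
            exact ⟨hv, by simp [hvY, h]⟩
        rw [this]
        exact hc2 q' hq'

/-- `E` contains the root and parents, and every vertex other than the root has an even number of
children in `E`. -/
structure Closed (p : V → V) (r : V) (E : Finset V) : Prop where
  root : r ∈ E
  parent : ∀ v ∈ E, p v ∈ E
  even : ∀ w, w ≠ r → Even (E.filter (fun v => p v = w)).card

/-- A partial labeling of `E`: an injective labeling, with the root labelled `0`, such that the
set of the sums `g v + g (p v)` equals the set of labels. -/
def PLab (p : V → V) (r : V) (E : Finset V) (J : Type*) [AddCommGroup J] [DecidableEq J] : Prop :=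
  ∃ g : V → J, g r = 0 ∧ Set.InjOn g E ∧ E.image (fun v => g v + g (p v)) = E.image g

section

variable {J : Type*} [AddCommGroup J] [DecidableEq J] [Fintype J]

theorem plab_add_one {p : V → V} {r : V} {E : Finset V} (hr : r ∈ E)
    (hpE : ∀ u ∈ E, p u ∈ E) (h : PLab p r E J) {v : V} (hv : v ∉ E) (hpv : p v = r)
    (hcard : E.card < Fintype.card J) : PLab p r (insert v E) J := by
  obtain ⟨g, hg0, hginj, hgim⟩ := h
  have hex : ∃ x : J, x ∉ E.image g := by
    by_contra hcon
    push Not at hcon
    have h1 : (univ : Finset J) ⊆ E.image g := fun x _ => hcon x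
    have h2 := card_le_card h1
    have h3 : (E.image g).card ≤ E.card := card_image_le
    rw [card_univ] at h2
    omega
  obtain ⟨x, hx⟩ := hex
  have hvr : v ≠ r := fun h => hv (h ▸ hr)
  have hgE : ∀ u ∈ E, Function.update g v x u = g u := by
    intro u hu
    exact Function.update_of_ne (fun h : u = v => hv (h ▸ hu)) _ _
  have himg : (insert v E).image (Function.update g v x) = insert x (E.image g) := by
    rw [image_insert, Function.update_self]
    congr 1
    exact image_congr (fun u hu => hgE u hu)
  refine ⟨Function.update g v x, by rw [Function.update_of_ne hvr.symm]; exact hg0, ?_, ?_⟩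
  · intro a ha b hb hab
    rw [mem_coe, mem_insert] at ha hb
    rcases ha with rfl | ha
    · rcases hb with rfl | hb
      · rfl
      · exfalso
        rw [Function.update_self, hgE b hb] at hab
        exact hx (mem_image.2 ⟨b, hb, hab.symm⟩)
    · rcases hb with rfl | hb
      · exfalso
        rw [Function.update_self, hgE a ha] at hab
        exact hx (mem_image.2 ⟨a, ha, hab⟩)
      · rw [hgE a ha, hgE b hb] at hab
        exact hginj ha hb hab
  · rw [himg, image_insert, Function.update_self, hpv, hgE r hr, hg0, add_zero]
    congr 1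
    rw [← hgim]
    apply image_congr
    intro u hu
    simp only [hgE u hu, hgE (p u) (hpE u hu)]

theorem plab_add_two (hJ : ∀ x : J, x + x = 0) {p : V → V} {r : V} {E : Finset V} (hr : r ∈ E)
    (hpE : ∀ u ∈ E, p u ∈ E) (h : PLab p r E J) {v v' : V} (hv : v ∉ E) (hv' : v' ∉ E)
    (hne : v ≠ v') (hpvE : p v ∈ E) (hpvr : p v ≠ r) (hpp : p v' = p v)
    (hcard : 2 * E.card < Fintype.card J) : PLab p r (insert v' (insert v E)) J := by
  obtain ⟨g, hg0, hginj, hgim⟩ := h
  set δ : J := g (p v) with hδ
  have hδ0 : δ ≠ 0 := by
    intro h0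
    exact hpvr (hginj hpvE hr (by rw [← hδ, h0, hg0]))
  have hex : ∃ x : J, x ∉ E.image g ∧ x + δ ∉ E.image g := by
    by_contra hcon
    push Not at hcon
    have h1 : (univ : Finset J) ⊆ E.image g ∪ (E.image g).image (fun y => y + δ) := by
      intro x _
      rw [mem_union]
      by_cases hx : x ∈ E.image g
      · exact Or.inl hx
      · right
        refine mem_image.2 ⟨x + δ, hcon x hx, ?_⟩
        rw [add_assoc, hJ, add_zero]
    have h2 := card_le_card h1
    have h3 : (E.image g).card ≤ E.card := card_image_le
    have h4 : ((E.image g).image (fun y => y + δ)).card ≤ (E.image g).card := card_image_le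
    have h5 := card_union_le (E.image g) ((E.image g).image (fun y => y + δ))
    rw [card_univ] at h2
    omega
  obtain ⟨x, hx, hxδ⟩ := hex
  have hxne : x ≠ x + δ := by
    intro h; apply hδ0
    have : x + 0 = x + δ := by rw [add_zero]; exact h
    exact (add_left_cancel this).symm
  set g' : V → J := Function.update (Function.update g v x) v' (x + δ) with hg'
  have hgv' : g' v' = x + δ := by rw [hg', Function.update_self]
  have hgv : g' v = x := by rw [hg', Function.update_of_ne hne, Function.update_self]
  have hgE : ∀ u ∈ E, g' u = g u := by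
    intro u hu
    rw [hg', Function.update_of_ne (fun h : u = v' => hv' (h ▸ hu)),
      Function.update_of_ne (fun h : u = v => hv (h ▸ hu))]
  have himgE : E.image g' = E.image g := image_congr (fun u hu => hgE u hu)
  have himg : (insert v' (insert v E)).image g' = insert (x + δ) (insert x (E.image g)) := by
    rw [image_insert, image_insert, hgv', hgv, himgE]
  refine ⟨g', by rw [hgE r hr]; exact hg0, ?_, ?_⟩
  · have hnv : ∀ b ∈ E, g' b ≠ x := by
      intro b hb h; rw [hgE b hb] at h; exact hx (mem_image.2 ⟨b, hb, h⟩)
    have hnv' : ∀ b ∈ E, g' b ≠ x + δ := by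
      intro b hb h; rw [hgE b hb] at h; exact hxδ (mem_image.2 ⟨b, hb, h⟩)
    intro a ha b hb hab
    simp only [coe_insert, Set.mem_insert_iff, mem_coe] at ha hb
    rcases ha with rfl | rfl | ha
    · rcases hb with rfl | rfl | hb
      · rfl
      · rw [hgv', hgv] at hab; exact (hxne hab.symm).elim
      · rw [hgv'] at hab; exact (hnv' b hb hab.symm).elim
    · rcases hb with rfl | rfl | hb
      · rw [hgv', hgv] at hab; exact (hxne hab).elim
      · rfl
      · rw [hgv] at hab; exact (hnv b hb hab.symm).elim
    · rcases hb with rfl | rfl | hb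
      · rw [hgv'] at hab; exact (hnv' a ha hab).elim
      · rw [hgv] at hab; exact (hnv a ha hab).elim
      · rw [hgE a ha, hgE b hb] at hab
        exact hginj ha hb hab
  · rw [himg, image_insert, image_insert]
    have e1 : g' v' + g' (p v') = x := by
      rw [hgv', hpp, hgE _ hpvE, ← hδ, add_assoc, hJ, add_zero]
    have e2 : g' v + g' (p v) = x + δ := by
      rw [hgv, hgE _ hpvE, ← hδ]
    have e3 : E.image (fun u => g' u + g' (p u)) = E.image g := by
      rw [← hgim]
      apply image_congr
      intro u hu
      simp only [hgE u hu, hgE (p u) (hpE u hu)]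
    simp only [e1, e2, e3]
    exact Finset.insert_comm _ _ _

/-- The greedy labeling. -/
theorem exists_plab (hJ : ∀ x : J, x + x = 0) {p : V → V} {r : V} (hpr : p r = r) {d : V → ℕ}
    (hd : ∀ v, v ≠ r → d v = d (p v) + 1) : ∀ (N : ℕ) (E : Finset V), E.card = N →
    Closed p r E → E.card ≤ Fintype.card J → 2 * E.card < Fintype.card J + 4 → PLab p r E J := by
  intro N
  induction N using Nat.strong_induction_on with
  | _ N IH =>
    intro E hEN hE h1 h2
    by_cases hEr : E = {r}
    · subst hEr
      exact ⟨fun _ => 0, rfl, by simp, by simp⟩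
    · have hne : (E.erase r).Nonempty := by
        rw [nonempty_iff_ne_empty]
        intro h
        rw [erase_eq_empty_iff] at h
        rcases h with h | h
        · have := hE.root; rw [h] at this; simp at this
        · exact hEr h
      obtain ⟨v, hv, hvmax⟩ := exists_max_image (E.erase r) d hne
      rw [mem_erase] at hv
      -- no child in E of a vertex of maximal depth
      have hnochild : ∀ z ∈ E, z ≠ r → d z = d v → ∀ u ∈ E, p u ≠ z := by
        intro z hz hzr hdz u hu hpu
        have hur : u ≠ r := by
          rintro rfl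
          rw [hpr] at hpu; exact hzr hpu.symm
        have h3 := hd u hur
        rw [hpu] at h3
        have h4 := hvmax u (mem_erase.2 ⟨hur, hu⟩)
        omega
      by_cases hpv : p v = r
      · -- a child of the root
        have hcl : Closed p r (E.erase v) := by
          refine ⟨mem_erase.2 ⟨hv.1.symm, hE.root⟩, ?_, ?_⟩
          · intro u hu
            rw [mem_erase] at hu
            exact mem_erase.2 ⟨hnochild v hv.2 hv.1 rfl u hu.2, hE.parent u hu.2⟩
          · intro w hw
            have : (E.erase v).filter (fun u => p u = w) = E.filter (fun u => p u = w) := by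
              ext u
              simp only [mem_filter, mem_erase]
              constructor
              · rintro ⟨⟨_, h3⟩, h4⟩; exact ⟨h3, h4⟩
              · rintro ⟨h3, h4⟩
                refine ⟨⟨?_, h3⟩, h4⟩
                rintro rfl
                exact hw (h4 ▸ hpv)
            rw [this]
            exact hE.even w hw
        have hc : (E.erase v).card = E.card - 1 := card_erase_of_mem hv.2
        have hcpos : 0 < E.card := card_pos.2 ⟨v, hv.2⟩
        have hlab := IH (E.erase v).card (by omega) (E.erase v) rfl hcl (by omega) (by omega)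
        have := plab_add_one hcl.root hcl.parent hlab (notMem_erase v E) hpv (by omega)
        rwa [insert_erase hv.2] at this
      · -- a pair of siblings
        have hev := hE.even (p v) hpv
        have h3 : v ∈ E.filter (fun u => p u = p v) := by simp [hv.2]
        have h4 : 1 < (E.filter (fun u => p u = p v)).card := by
          have h5 : 0 < (E.filter (fun u => p u = p v)).card := card_pos.2 ⟨v, h3⟩
          obtain ⟨k, hk⟩ := hev
          omega
        obtain ⟨v', hv', hne'⟩ := exists_mem_ne h4 v
        rw [mem_filter] at hv'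
        have hv'r : v' ≠ r := by
          rintro rfl
          rw [hpr] at hv'
          exact hpv hv'.2.symm
        have hdv' : d v' = d v := by rw [hd v' hv'r, hd v hv.1, hv'.2]
        set E' := (E.erase v').erase v with hE'
        have hvE' : v ∈ E.erase v' := mem_erase.2 ⟨hne'.symm, hv.2⟩
        have hcl : Closed p r E' := by
          refine ⟨?_, ?_, ?_⟩
          · rw [hE', mem_erase, mem_erase]; exact ⟨hv.1.symm, hv'r.symm, hE.root⟩
          · intro u hu
            rw [hE', mem_erase, mem_erase] at hu ⊢
            exact ⟨hnochild v hv.2 hv.1 rfl u hu.2.2, hnochild v' hv'.1 hv'r hdv' u hu.2.2,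
              hE.parent u hu.2.2⟩
          · intro w hw
            by_cases hwv : w = p v
            · have : E'.filter (fun u => p u = w)
                  = ((E.filter (fun u => p u = w)).erase v').erase v := by
                ext u
                simp only [hE', mem_filter, mem_erase]
                tauto
              rw [this, card_erase_of_mem, card_erase_of_mem]
              · obtain ⟨k, hk⟩ := hE.even w hw
                exact ⟨k - 1, by omega⟩
              · simp [hv'.1, hv'.2, hwv]
              · simp [hne'.symm, hv.2, hwv]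
            · have : E'.filter (fun u => p u = w) = E.filter (fun u => p u = w) := by
                ext u
                simp only [hE', mem_filter, mem_erase]
                constructor
                · rintro ⟨⟨_, _, h3⟩, h4⟩; exact ⟨h3, h4⟩
                · rintro ⟨h3, h4⟩
                  refine ⟨⟨?_, ?_, h3⟩, h4⟩
                  · intro huv; exact hwv (by rw [← h4, huv])
                  · intro huv; exact hwv (by rw [← h4, huv, hv'.2])
              rw [this]
              exact hE.even w hw
        have hc : E'.card = E.card - 2 := by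
          rw [hE', card_erase_of_mem hvE', card_erase_of_mem hv'.1]; omega
        have hc2 : 2 ≤ E.card := by
          have := card_le_card (filter_subset (fun u => p u = p v) E)
          omega
        have hlab := IH E'.card (by omega) E' rfl hcl (by omega) (by omega)
        have hpvE' : p v ∈ E' := by
          rw [hE', mem_erase, mem_erase]
          exact ⟨hnochild v hv.2 hv.1 rfl v hv.2, hnochild v' hv'.1 hv'r hdv' v hv.2,
            hE.parent v hv.2⟩
        have := plab_add_two hJ hcl.root hcl.parent hlab (v := v) (v' := v')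
          (by rw [hE']; exact notMem_erase v _)
          (by rw [hE', mem_erase, mem_erase]; tauto) hne'.symm hpvE' hpv hv'.2 (by omega)
        rwa [hE', insert_erase hvE', insert_erase hv'.1] at this

/-- Adding children of the root. -/
theorem plab_union {p : V → V} {r : V} {E : Finset V} (hr : r ∈ E)
    (hpE : ∀ u ∈ E, p u ∈ E) (h : PLab p r E J) (F : Finset V) : Disjoint E F →
    (∀ v ∈ F, p v = r) → E.card + F.card ≤ Fintype.card J → PLab p r (E ∪ F) J := by
  induction F using Finset.induction_on with
  | empty => intro _ _ _; simpa using h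
  | insert v F hv ih =>
    intro hdis hF hcard
    rw [card_insert_of_notMem hv] at hcard
    have hdis' : Disjoint E F := hdis.mono_right (subset_insert v F)
    have ih' := ih hdis' (fun u hu => hF u (mem_insert_of_mem hu)) (by omega)
    have hvE : v ∉ E := fun hvE => (disjoint_left.1 hdis hvE) (mem_insert_self v F)
    have := plab_add_one (mem_union_left F hr) (fun u hu => ?_) ih' (v := v)
      (by rw [mem_union]; tauto) (hF v (mem_insert_self v F))
      (by rw [card_union_of_disjoint hdis']; omega)
    · rwa [← union_insert] at this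
    · rw [mem_union] at hu
      rcases hu with hu | hu
      · exact mem_union_left _ (hpE u hu)
      · rw [hF u (mem_insert_of_mem hu)]; exact mem_union_left _ hr

omit [DecidableEq J] in
/-- Hall's theorem on a finset of vertices. -/
theorem hall_finset (U : Finset V) (b : V → J) (hc : U.card = Fintype.card J)
    (hb : ∑ v ∈ U, b v = 0) : ∃ a : V → J, Set.InjOn a U ∧
      Set.InjOn (fun v => a v + b v) U := by
  have h1 : Fintype.card {v // v ∈ U} = Fintype.card J := by
    rw [Fintype.card_coe, hc]
  obtain ⟨a, ha1, ha2⟩ := hall_zero_sum h1 (fun v : {v // v ∈ U} => b v)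
    (by rw [Finset.sum_coe_sort U b]; exact hb)
  refine ⟨fun v => if h : v ∈ U then a ⟨v, h⟩ else 0, ?_, ?_⟩
  · intro u hu v hv huv
    simp only [mem_coe] at hu hv
    simp only [hu, hv, dif_pos] at huv
    exact congrArg Subtype.val (ha1.injective huv)
  · intro u hu v hv huv
    simp only [mem_coe] at hu hv
    simp only [hu, hv, dif_pos] at huv
    exact congrArg Subtype.val (ha2.injective huv)

omit [DecidableEq J] [Fintype J] in
theorem sum_evenFib_eq_zero (hJ : ∀ x : J, x + x = 0) {p : V → V} {U : Finset V}
    (hU : EvenFib p U) (g : V → J) : ∑ v ∈ U, g (p v) = 0 := by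
  rw [Finset.sum_comp g p]
  apply sum_eq_zero
  intro w _
  obtain ⟨k, hk⟩ := hU w
  rw [hk, add_smul, ← smul_add, hJ, smul_zero]

/-- The extension lemma. -/
theorem plab_extend (hJ : ∀ x : J, x + x = 0) {Q : Type*} [AddCommGroup Q] [DecidableEq Q]
    [Fintype Q] {p : V → V} {r : V} {E E' : Finset V} (hEE' : E ⊆ E') (hr : r ∈ E)
    (hpE : ∀ v ∈ E', p v ∈ E) (hev : EvenFib p (E' \ E)) (hlab : PLab p r E J)
    (hfull : E.card = Fintype.card J) (hJe : Even (Fintype.card J))
    (hcard : E'.card = Fintype.card J * Fintype.card Q) : PLab p r E' (J × Q) := by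
  obtain ⟨g, hg0, hginj, hgim⟩ := hlab
  have hUc : (E' \ E).card = ((univ : Finset Q).erase 0).card * Fintype.card J := by
    rw [card_sdiff_of_subset hEE', hcard, hfull, card_erase_of_mem (mem_univ _), card_univ,
      Nat.sub_mul, one_mul, mul_comm]
  have : Inhabited Q := ⟨0⟩
  obtain ⟨c, hc1, hc2⟩ := exists_partition (p := p) hJe ((univ : Finset Q).erase 0) (E' \ E) hev hUc
  have hA : ∀ q : Q, ∃ a : V → J, q ≠ 0 →
      Set.InjOn a ((E' \ E).filter (fun v => c v = q)) ∧
      Set.InjOn (fun v => a v + g (p v)) ((E' \ E).filter (fun v => c v = q)) := by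
    intro q
    by_cases hq : q = 0
    · exact ⟨fun _ => 0, fun h => (h hq).elim⟩
    · obtain ⟨h1, h2⟩ := hc2 q (mem_erase.2 ⟨hq, mem_univ _⟩)
      obtain ⟨a, ha1, ha2⟩ := hall_finset _ (fun v => g (p v)) h1
        (sum_evenFib_eq_zero hJ h2 g)
      exact ⟨a, fun _ => ⟨ha1, ha2⟩⟩
  choose a ha using hA
  have hsumE : Set.InjOn (fun v => g v + g (p v)) E := by
    rw [← card_image_iff, hgim, card_image_iff]
    exact hginj
  let g' : V → J × Q := fun v => if v ∈ E then (g v, 0) else (a (c v) v, c v)
  have hg'E : ∀ v ∈ E, g' v = (g v, 0) := fun v hv => by simp [g', hv]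
  have hg'U : ∀ v, v ∉ E → g' v = (a (c v) v, c v) := fun v hv => by simp [g', hv]
  have hcU : ∀ v ∈ E', v ∉ E → c v ≠ 0 := by
    intro v hv hvE
    have := hc1 v (mem_sdiff.2 ⟨hv, hvE⟩)
    exact (mem_erase.1 this).1
  have hinj1 : Set.InjOn g' E' := by
    intro u hu v hv huv
    rw [mem_coe] at hu hv
    by_cases huE : u ∈ E
    · by_cases hvE : v ∈ E
      · rw [hg'E u huE, hg'E v hvE, Prod.mk.injEq] at huv
        exact hginj huE hvE huv.1
      · rw [hg'E u huE, hg'U v hvE, Prod.mk.injEq] at huv
        exact (hcU v hv hvE huv.2.symm).elim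
    · by_cases hvE : v ∈ E
      · rw [hg'U u huE, hg'E v hvE, Prod.mk.injEq] at huv
        exact (hcU u hu huE huv.2).elim
      · rw [hg'U u huE, hg'U v hvE, Prod.mk.injEq] at huv
        obtain ⟨h1, h2⟩ := huv
        rw [← h2] at h1
        refine (ha (c u) (hcU u hu huE)).1 ?_ ?_ h1
        · exact mem_coe.2 (mem_filter.2 ⟨mem_sdiff.2 ⟨hu, huE⟩, rfl⟩)
        · exact mem_coe.2 (mem_filter.2 ⟨mem_sdiff.2 ⟨hv, hvE⟩, h2.symm⟩)
  have hs1 : ∀ v ∈ E, g' v + g' (p v) = (g v + g (p v), 0) := by
    intro v hv
    rw [hg'E v hv, hg'E (p v) (hpE v (hEE' hv))]; simp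
  have hs2 : ∀ v ∈ E', v ∉ E → g' v + g' (p v) = (a (c v) v + g (p v), c v) := by
    intro v hv hvE
    rw [hg'U v hvE, hg'E (p v) (hpE v hv)]; simp
  have hinj2 : Set.InjOn (fun v => g' v + g' (p v)) E' := by
    intro u hu v hv huv
    rw [mem_coe] at hu hv
    simp only at huv
    by_cases huE : u ∈ E
    · by_cases hvE : v ∈ E
      · rw [hs1 u huE, hs1 v hvE, Prod.mk.injEq] at huv
        exact hsumE huE hvE huv.1
      · rw [hs1 u huE, hs2 v hv hvE, Prod.mk.injEq] at huv
        exact (hcU v hv hvE huv.2.symm).elim
    · by_cases hvE : v ∈ E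
      · rw [hs2 u hu huE, hs1 v hvE, Prod.mk.injEq] at huv
        exact (hcU u hu huE huv.2).elim
      · rw [hs2 u hu huE, hs2 v hv hvE, Prod.mk.injEq] at huv
        obtain ⟨h1, h2⟩ := huv
        rw [← h2] at h1
        refine (ha (c u) (hcU u hu huE)).2 ?_ ?_ h1
        · exact mem_coe.2 (mem_filter.2 ⟨mem_sdiff.2 ⟨hu, huE⟩, rfl⟩)
        · exact mem_coe.2 (mem_filter.2 ⟨mem_sdiff.2 ⟨hv, hvE⟩, h2.symm⟩)
  have huniv : ∀ f : V → J × Q, Set.InjOn f E' → E'.image f = univ := by
    intro f hf
    rw [← card_eq_iff_eq_univ, card_image_of_injOn hf, hcard, Fintype.card_prod]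
  refine ⟨g', by rw [hg'E r hr, hg0]; rfl, hinj1, ?_⟩
  rw [huniv _ hinj1, huniv _ hinj2]

end

end Pool.Agent.H57.SS
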