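import Mathlib
import Pool.Agent.H57.SS.Rooted

/-!
# The parent function of a tree, and the transfer to set-sequential labelings
-/

set_option autoImplicit false

open Finset

namespace Pool.Agent.H57.SS

/-- A finite group of exponent two and of order `2^n` is `F_2^n`. -/
theorem exists_addEquiv (J : Type*) [AddCommGroup J] [Fintype J] (hJ : ∀ x : J, x + x = 0)
    (n : ℕ) (hc : Fintype.card J = 2 ^ n) : Nonempty (J ≃+ (Fin n → ZMod 2)) := by
  let _ : Module (ZMod 2) J := AddCommGroup.zmodModule (n := 2) (fun x => by rw [two_smul, hJ])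
  have h1 : Fintype.card J = Fintype.card (ZMod 2) ^ Module.finrank (ZMod 2) J :=
    Module.card_eq_pow_finrank
  rw [ZMod.card, hc] at h1
  have h2 : Module.finrank (ZMod 2) J = n := (Nat.pow_right_injective le_rfl h1).symm
  have h3 : Module.finrank (ZMod 2) J = Module.finrank (ZMod 2) (Fin n → ZMod 2) := by
    rw [h2, Module.finrank_fin_fun]
  exact ⟨(LinearEquiv.ofFinrankEq J (Fin n → ZMod 2) h3).toAddEquiv⟩

theorem add_self_fin (k : ℕ) (x : Fin k → ZMod 2) : x + x = 0 := by
  funext i
  simp only [Pi.add_apply, Pi.zero_apply]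
  generalize x i = y
  revert y
  decide

section rooted

variable {V : Type*} [DecidableEq V]

theorem PLab.congr {p : V → V} {r : V} {E : Finset V} {J J' : Type*} [AddCommGroup J]
    [DecidableEq J] [AddCommGroup J'] [DecidableEq J'] (e : J ≃+ J') (h : PLab p r E J) :
    PLab p r E J' := by
  obtain ⟨g, h0, hi, him⟩ := h
  refine ⟨fun v => e (g v), by simp only [h0, map_zero], ?_, ?_⟩
  · intro a ha b hb hab
    exact hi ha hb (e.injective hab)
  · have h1 : E.image (fun v => e (g v) + e (g (p v))) = (E.image (fun v => g v + g (p v))).image e := by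
      rw [image_image]; apply image_congr; intro v _; simp
    have h2 : E.image (fun v => e (g v)) = (E.image g).image e := by
      rw [image_image]; rfl
    rw [h1, h2, him]

theorem Closed.evenFib_sdiff {p : V → V} {r : V} {E E' : Finset V} (hE : Closed p r E)
    (hE' : Closed p r E') (h : E ⊆ E') (he : Even E.card) (he' : Even E'.card) :
    EvenFib p (E' \ E) := by
  have key : ∀ w, w ≠ r → Even ((E' \ E).filter (fun v => p v = w)).card := by
    intro w hw
    have h1 : (E' \ E).filter (fun v => p v = w)
        = E'.filter (fun v => p v = w) \ E.filter (fun v => p v = w) := by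
      ext v; simp only [mem_filter, mem_sdiff]; tauto
    have h2 : E.filter (fun v => p v = w) ⊆ E'.filter (fun v => p v = w) :=
      filter_subset_filter _ h
    rw [h1, card_sdiff_of_subset h2]
    obtain ⟨a, ha⟩ := hE'.even w hw
    obtain ⟨b, hb⟩ := hE.even w hw
    exact ⟨a - b, by omega⟩
  intro w
  by_cases hw : w = r
  · subst hw
    have h1 := card_filter_add_card_filter_not (s := E' \ E) (fun v => p v = w)
    have h2 : Even ((E' \ E).filter (fun v => ¬ p v = w)).card := by
      apply EvenFib.card_even (p := p)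
      intro z
      by_cases hz : z = w
      · subst hz
        rw [filter_filter]
        have : (E' \ E).filter (fun v => ¬ p v = z ∧ p v = z) = ∅ := by
          apply filter_false_of_mem; tauto
        rw [this]; simp
      · rw [filter_filter]
        have : (E' \ E).filter (fun v => ¬ p v = w ∧ p v = z)
            = (E' \ E).filter (fun v => p v = z) := by
          apply filter_congr
          intro v _
          constructor
          · exact fun h => h.2
          · intro h; exact ⟨by rw [h]; exact hz, h⟩
        rw [this]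
        exact key z hz
    have h3 : Even (E' \ E).card := by
      rw [card_sdiff_of_subset h]
      obtain ⟨a, ha⟩ := he'
      obtain ⟨b, hb⟩ := he
      exact ⟨a - b, by omega⟩
    obtain ⟨a, ha⟩ := h3
    obtain ⟨b, hb⟩ := h2
    exact ⟨a - b, by omega⟩
  · exact key w hw

/-- The extension lemma for the groups `F_2^k`. -/
theorem plab_extend' {p : V → V} {r : V} {E E' : Finset V} (hE : Closed p r E)
    (hE' : Closed p r E') (hEE' : E ⊆ E') {k k' : ℕ} (hk : 1 ≤ k) (hcE : E.card = 2 ^ k)
    (hcE' : E'.card = 2 ^ k') (hpE : ∀ v ∈ E', p v ∈ E) (hlab : PLab p r E (Fin k → ZMod 2)) :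
    PLab p r E' (Fin k' → ZMod 2) := by
  have hkk : k ≤ k' := by
    have := card_le_card hEE'
    rw [hcE, hcE'] at this
    exact (Nat.pow_le_pow_iff_right (by norm_num)).1 this
  have he : Even (2 ^ k) := (Nat.even_pow.2 ⟨even_two, by omega⟩)
  have he' : Even (2 ^ k') := (Nat.even_pow.2 ⟨even_two, by omega⟩)
  have hev := hE.evenFib_sdiff hE' hEE' (hcE ▸ he) (hcE' ▸ he')
  have hcJ : Fintype.card (Fin k → ZMod 2) = 2 ^ k := by simp
  have h1 := plab_extend (J := Fin k → ZMod 2) (add_self_fin k) (Q := Fin (k' - k) → ZMod 2)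
    hEE' hE.root hpE hev hlab (by rw [hcJ, hcE]) (by rw [hcJ]; exact he)
    (by
      have : Fintype.card (Fin (k' - k) → ZMod 2) = 2 ^ (k' - k) := by simp
      rw [hcJ, this, hcE', ← pow_add]; congr 1; omega)
  obtain ⟨e⟩ := exists_addEquiv ((Fin k → ZMod 2) × (Fin (k' - k) → ZMod 2))
    (fun x => Prod.ext (add_self_fin k x.1) (add_self_fin (k' - k) x.2)) k' (by
      have h2 : Fintype.card (Fin (k' - k) → ZMod 2) = 2 ^ (k' - k) := by simp
      rw [Fintype.card_prod, hcJ, h2, ← pow_add]; congr 1; omega)
  exact h1.congr e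

end rooted

section tree

variable {V : Type*} [Fintype V] [DecidableEq V] {T : SimpleGraph V}

omit [Fintype V] [DecidableEq V] in
theorem exists_parent (hT : T.IsTree) (r v : V) (hv : v ≠ r) :
    ∃ w, T.Adj v w ∧ T.dist r v = T.dist r w + 1 := by
  obtain ⟨q, hq⟩ := hT.connected.exists_walk_length_eq_dist v r
  cases q with
  | nil => exact (hv rfl).elim
  | @cons _ w _ h q' =>
    refine ⟨w, h, ?_⟩
    rw [SimpleGraph.Walk.length_cons] at hq
    have h1 : T.dist w r ≤ q'.length := SimpleGraph.dist_le q'
    have h2 : T.dist v r ≤ T.dist v w + T.dist w r := hT.connected.dist_triangle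
    have h3 : T.dist v w = 1 := SimpleGraph.dist_eq_one_iff_adj.2 h
    rw [T.dist_comm (u := r), T.dist_comm (u := r) (v := w)]
    omega

/-- The parent of a vertex in a tree rooted at `r`; the root is its own parent. -/
noncomputable def par (hT : T.IsTree) (r : V) (v : V) : V :=
  if h : v = r then r else Classical.choose (exists_parent hT r v h)

theorem par_root (hT : T.IsTree) (r : V) : par hT r r = r := by simp [par]

theorem adj_par (hT : T.IsTree) (r v : V) (hv : v ≠ r) : T.Adj v (par hT r v) := by
  simp only [par, hv, dif_neg, not_false_eq_true]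
  exact (Classical.choose_spec (exists_parent hT r v hv)).1

theorem dist_par (hT : T.IsTree) (r v : V) (hv : v ≠ r) :
    T.dist r v = T.dist r (par hT r v) + 1 := by
  simp only [par, hv, dif_neg, not_false_eq_true]
  exact (Classical.choose_spec (exists_parent hT r v hv)).2

theorem image_edges [DecidableRel T.Adj] (hT : T.IsTree) (r : V) :
    (univ.erase r).image (fun v => s(v, par hT r v)) = T.edgeFinset := by
  apply eq_of_subset_of_card_le
  · intro e he
    rw [mem_image] at he
    obtain ⟨v, hv, rfl⟩ := he
    rw [SimpleGraph.mem_edgeFinset, SimpleGraph.mem_edgeSet]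
    exact adj_par hT r v (mem_erase.1 hv).1
  · rw [card_image_of_injOn]
    · rw [card_erase_of_mem (mem_univ r), card_univ]
      have := hT.card_edgeFinset
      omega
    · intro a ha b hb hab
      simp only [coe_erase, Set.mem_sdiff, Set.mem_singleton_iff] at ha hb
      simp only [Sym2.eq_iff] at hab
      rcases hab with ⟨h, _⟩ | ⟨h1, h2⟩
      · exact h
      · have h3 := dist_par hT r a ha.2
        have h4 := dist_par hT r b hb.2
        rw [h2] at h3
        rw [← h1] at h4
        omega

theorem adj_iff_par (hT : T.IsTree) (r a b : V) :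
    T.Adj a b ↔ (a ≠ r ∧ par hT r a = b) ∨ (b ≠ r ∧ par hT r b = a) := by
  classical
  constructor
  · intro h
    have h1 : s(a, b) ∈ T.edgeFinset := by
      rw [SimpleGraph.mem_edgeFinset, SimpleGraph.mem_edgeSet]; exact h
    rw [← image_edges hT r, mem_image] at h1
    obtain ⟨v, hv, h2⟩ := h1
    simp only [Sym2.eq_iff] at h2
    rcases h2 with ⟨rfl, h3⟩ | ⟨rfl, h3⟩
    · exact Or.inl ⟨(mem_erase.1 hv).1, h3⟩
    · exact Or.inr ⟨(mem_erase.1 hv).1, h3⟩
  · rintro (⟨h1, rfl⟩ | ⟨h1, rfl⟩)
    · exact adj_par hT r a h1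
    · exact (adj_par hT r b h1).symm

variable [DecidableRel T.Adj]

theorem neighborFinset_eq (hT : T.IsTree) (r w : V) (hw : w ≠ r) :
    T.neighborFinset w = insert (par hT r w) (univ.filter (fun v => par hT r v = w)) := by
  ext v
  rw [SimpleGraph.mem_neighborFinset, adj_iff_par hT r w v, mem_insert, mem_filter]
  constructor
  · rintro (⟨_, h⟩ | ⟨_, h⟩)
    · exact Or.inl h.symm
    · exact Or.inr ⟨mem_univ v, h⟩
  · rintro (h | ⟨_, h⟩)
    · exact Or.inl ⟨hw, h.symm⟩
    · right
      refine ⟨?_, h⟩
      rintro rfl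
      rw [par_root] at h
      exact hw h.symm

theorem neighborFinset_root (hT : T.IsTree) (r : V) :
    T.neighborFinset r = (univ.filter (fun v => par hT r v = r)).erase r := by
  ext v
  rw [SimpleGraph.mem_neighborFinset, adj_iff_par hT r r v, mem_erase, mem_filter]
  constructor
  · rintro (⟨h, _⟩ | ⟨h1, h2⟩)
    · exact (h rfl).elim
    · exact ⟨h1, mem_univ v, h2⟩
  · rintro ⟨h1, _, h2⟩
    exact Or.inr ⟨h1, h2⟩

theorem card_children (hT : T.IsTree) (r w : V) (hw : w ≠ r) :
    (univ.filter (fun v => par hT r v = w)).card + 1 = T.degree w := by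
  rw [← SimpleGraph.card_neighborFinset_eq_degree, neighborFinset_eq hT r w hw,
    card_insert_of_notMem]
  rw [mem_filter]
  rintro ⟨_, h⟩
  by_cases hp : par hT r w = r
  · rw [hp, par_root] at h; exact hw h.symm
  · have h1 := dist_par hT r _ hp
    have h2 := dist_par hT r w hw
    rw [h] at h1
    omega

theorem card_children_root (hT : T.IsTree) (r : V) :
    (univ.filter (fun v => par hT r v = r)).card = T.degree r + 1 := by
  rw [← SimpleGraph.card_neighborFinset_eq_degree, neighborFinset_root hT r,
    card_erase_of_mem (by simp [par_root])]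
  have : 0 < (univ.filter (fun v => par hT r v = r)).card := card_pos.2 ⟨r, by simp [par_root]⟩
  omega

theorem closed_univ (hT : T.IsTree) (r : V) (hodd : ∀ v, Odd (T.degree v)) :
    Closed (par hT r) r univ := by
  refine ⟨mem_univ _, fun v _ => mem_univ _, ?_⟩
  intro w hw
  have h1 := card_children hT r w hw
  obtain ⟨k, hk⟩ := hodd w
  exact ⟨k, by omega⟩

omit [DecidableRel T.Adj] in
/-- A full labeling gives a set-graceful labeling. -/
theorem exists_graceful (hT : T.IsTree) (r : V) {n : ℕ}
    (hc : Fintype.card V = 2 ^ n) (h : PLab (par hT r) r univ (Fin n → ZMod 2)) :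
    ∃ g : V → (Fin n → ZMod 2), Function.Bijective g ∧
      ∀ a b c d : V, T.Adj a b → T.Adj c d → g a + g b = g c + g d → s(a, b) = s(c, d) := by
  obtain ⟨g, hg0, hginj, hgim⟩ := h
  have hginj' : Function.Injective g := by
    intro a b hab
    exact hginj (by simp) (by simp) hab
  have hsum : Function.Injective (fun v => g v + g (par hT r v)) := by
    have : Set.InjOn (fun v => g v + g (par hT r v)) (univ : Finset V) := by
      rw [← card_image_iff, hgim, card_image_iff]; exact hginj
    intro a b hab
    exact this (by simp) (by simp) hab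
  refine ⟨g, ?_, ?_⟩
  · rw [Fintype.bijective_iff_injective_and_card]
    exact ⟨hginj', by rw [hc]; simp⟩
  · intro a b c d hab hcd heq
    have key : ∀ a b : V, T.Adj a b → ∃ v, v ≠ r ∧ s(a, b) = s(v, par hT r v) ∧
        g a + g b = g v + g (par hT r v) := by
      intro a b hab
      rcases (adj_iff_par hT r a b).1 hab with ⟨h1, h2⟩ | ⟨h1, h2⟩
      · exact ⟨a, h1, by rw [h2], by rw [h2]⟩
      · exact ⟨b, h1, by rw [h2]; exact Sym2.eq_swap, by rw [h2]; exact add_comm _ _⟩
    obtain ⟨v, _, h1, h2⟩ := key a b hab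
    obtain ⟨w, _, h3, h4⟩ := key c d hcd
    rw [h1, h3]
    have : v = w := hsum (by simp only; rw [← h2, ← h4, heq])
    rw [this]

omit [Fintype V] [DecidableEq V] [DecidableRel T.Adj] in
/-- A set-graceful labeling gives a set-sequential one. -/
theorem exists_setSequential {n : ℕ}
    (h : ∃ g : V → (Fin n → ZMod 2), Function.Bijective g ∧
      ∀ a b c d : V, T.Adj a b → T.Adj c d → g a + g b = g c + g d → s(a, b) = s(c, d)) :
    ∃ g : V ⊕ T.edgeSet → (Fin (n + 1) → ZMod 2),
        Function.Injective g ∧ (∀ x, g x ≠ 0) ∧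
        ∀ (a b : V) (h : T.Adj a b),
          g (Sum.inr ⟨s(a, b), (SimpleGraph.mem_edgeSet T).2 h⟩) = g (Sum.inl a) + g (Sum.inl b) := by
  obtain ⟨g, hg, hgE⟩ := h
  let F : V ⊕ T.edgeSet → (Fin (n + 1) → ZMod 2) := fun x =>
    match x with
    | Sum.inl a => Fin.cons 1 (g a)
    | Sum.inr e => Fin.cons 0 (Sym2.lift ⟨fun a b => g a + g b, fun a b => add_comm _ _⟩ e.1)
  have hF1 : ∀ a, F (Sum.inl a) = Fin.cons 1 (g a) := fun a => rfl
  have hF2 : ∀ a b (h : s(a, b) ∈ T.edgeSet), F (Sum.inr ⟨s(a, b), h⟩) = Fin.cons 0 (g a + g b) :=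
    fun a b h => rfl
  have hcons : ∀ (x y : ZMod 2) (u v : Fin n → ZMod 2),
      (Fin.cons x u : Fin (n + 1) → ZMod 2) = Fin.cons y v → x = y ∧ u = v := by
    intro x y u v h
    refine ⟨by simpa using congrFun h 0, ?_⟩
    funext i
    simpa using congrFun h i.succ
  have h10 : (1 : ZMod 2) ≠ 0 := by decide
  refine ⟨F, ?_, ?_, ?_⟩
  · rintro (a | ⟨e, he⟩) (b | ⟨e', he'⟩) hab
    · rw [hF1, hF1] at hab
      rw [hg.1 (hcons _ _ _ _ hab).2]
    · induction e' using Sym2.ind with
      | _ c d =>
        rw [hF1, hF2] at hab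
        exact (h10 (hcons _ _ _ _ hab).1).elim
    · induction e using Sym2.ind with
      | _ c d =>
        rw [hF1, hF2] at hab
        exact (h10 (hcons _ _ _ _ hab).1.symm).elim
    · induction e using Sym2.ind with
      | _ a b =>
        induction e' using Sym2.ind with
        | _ c d =>
          rw [hF2, hF2] at hab
          have h1 := (hcons _ _ _ _ hab).2
          have h2 := hgE a b c d ((SimpleGraph.mem_edgeSet T).1 he)
            ((SimpleGraph.mem_edgeSet T).1 he') h1
          simp only [h2]
  · rintro (a | ⟨e, he⟩) h0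
    · rw [hF1] at h0
      have : (Fin.cons 1 (g a) : Fin (n + 1) → ZMod 2) 0 = 0 := by rw [h0]; rfl
      rw [Fin.cons_zero] at this
      exact h10 this
    · induction e using Sym2.ind with
      | _ a b =>
        rw [hF2] at h0
        have hadj := (SimpleGraph.mem_edgeSet T).1 he
        have h1 : g a + g b = 0 := by
          funext i
          have := congrFun h0 i.succ
          simpa using this
        have h2 : g a = g b := by
          have h3 := add_self_fin n (g b)
          have h4 : g a + g b = g b + g b := by rw [h1, h3]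
          exact add_right_cancel h4
        exact hadj.ne (hg.1 h2)
  · intro a b h
    rw [hF2, hF1, hF1]
    funext i
    refine Fin.cases ?_ (fun i => ?_) i
    · simp only [Fin.cons_zero, Pi.add_apply]; decide
    · simp only [Fin.cons_succ, Pi.add_apply]

end tree

end Pool.Agent.H57.SS
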