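import Mathlib
import Pool.Agent.H57.SS.Tree

/-!
# Sufficient conditions for a full labeling
-/

set_option autoImplicit false

open Finset

namespace Pool.Agent.H57.SS

section evenclosure

variable {V : Type*} [DecidableEq V]

/-- The set of parents with an odd number of children in `A`. -/
def oddPar (p : V → V) (A : Finset V) : Finset V :=
  (A.image p).filter (fun w => Odd (A.filter (fun v => p v = w)).card)

theorem mem_oddPar {p : V → V} {A : Finset V} {w : V} :
    w ∈ oddPar p A ↔ Odd (A.filter (fun v => p v = w)).card := by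
  rw [oddPar, mem_filter]
  refine ⟨fun h => h.2, fun h => ⟨?_, h⟩⟩
  have h1 : 0 < (A.filter (fun v => p v = w)).card := h.pos
  obtain ⟨v, hv⟩ := card_pos.1 h1
  rw [mem_filter] at hv
  exact mem_image.2 ⟨v, hv.1, hv.2⟩

theorem card_oddPar_le (p : V → V) (A : Finset V) : (oddPar p A).card ≤ A.card :=
  (card_le_card (filter_subset _ _)).trans card_image_le

/-- Even closure: `A ⊆ X`, all fibres of `X` even; there is `M ⊆ X \ A` with one vertex for each
odd fibre of `A`, such that all the fibres of `A ∪ M` are even. -/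
theorem exists_evenClosure {p : V → V} {X A : Finset V} (hX : EvenFib p X) (hA : A ⊆ X) :
    ∃ M ⊆ X, Disjoint A M ∧ EvenFib p (A ∪ M) ∧ M.card = (oddPar p A).card ∧
      (∀ v ∈ M, p v ∈ oddPar p A) ∧ ∀ w ∈ oddPar p A, ∃ v ∈ M, p v = w := by
  have hex : ∀ w, ∃ v, w ∈ oddPar p A → v ∈ X ∧ v ∉ A ∧ p v = w := by
    intro w
    by_cases hw : w ∈ oddPar p A
    · have hodd := mem_oddPar.1 hw
      have hev := hX w
      have hsub : A.filter (fun v => p v = w) ⊆ X.filter (fun v => p v = w) :=
        filter_subset_filter _ hA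
      have hne : A.filter (fun v => p v = w) ≠ X.filter (fun v => p v = w) := by
        intro h
        rw [h] at hodd
        exact (Nat.not_even_iff_odd.2 hodd) hev
      obtain ⟨v, hv1, hv2⟩ := exists_of_ssubset (lt_of_le_of_ne hsub hne)
      rw [mem_filter] at hv1
      refine ⟨v, fun _ => ⟨hv1.1, fun h => hv2 (mem_filter.2 ⟨h, hv1.2⟩), hv1.2⟩⟩
    · exact ⟨w, fun h => (hw h).elim⟩
  choose μ hμ using hex
  have hinj : Set.InjOn μ (oddPar p A) := by
    intro a ha b hb hab
    rw [← (hμ a ha).2.2, ← (hμ b hb).2.2, hab]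
  refine ⟨(oddPar p A).image μ, ?_, ?_, ?_, ?_, ?_, ?_⟩
  · intro v hv
    obtain ⟨w, hw, rfl⟩ := mem_image.1 hv
    exact (hμ w hw).1
  · rw [Finset.disjoint_right]
    intro v hv
    obtain ⟨w, hw, rfl⟩ := mem_image.1 hv
    exact (hμ w hw).2.1
  · intro w
    have hdis : Disjoint A ((oddPar p A).image μ) := by
      rw [Finset.disjoint_right]
      intro v hv
      obtain ⟨w, hw, rfl⟩ := mem_image.1 hv
      exact (hμ w hw).2.1
    rw [filter_union, card_union_of_disjoint (disjoint_filter_filter hdis)]
    by_cases hw : w ∈ oddPar p A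
    · have : ((oddPar p A).image μ).filter (fun v => p v = w) = {μ w} := by
        ext v
        rw [mem_filter, mem_image, mem_singleton]
        constructor
        · rintro ⟨⟨z, hz, rfl⟩, h⟩
          rw [(hμ z hz).2.2] at h; rw [h]
        · rintro rfl
          exact ⟨⟨w, hw, rfl⟩, (hμ w hw).2.2⟩
      rw [this, card_singleton]
      exact (mem_oddPar.1 hw).add_odd odd_one
    · have : ((oddPar p A).image μ).filter (fun v => p v = w) = ∅ := by
        apply filter_false_of_mem
        intro v hv h
        obtain ⟨z, hz, rfl⟩ := mem_image.1 hv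
        rw [(hμ z hz).2.2] at h
        exact hw (h ▸ hz)
      rw [this, card_empty, add_zero]
      rw [mem_oddPar] at hw
      exact Nat.not_odd_iff_even.1 hw
  · exact card_image_of_injOn hinj
  · intro v hv
    obtain ⟨w, hw, rfl⟩ := mem_image.1 hv
    rw [(hμ w hw).2.2]; exact hw
  · intro w hw
    exact ⟨μ w, mem_image_of_mem μ hw, (hμ w hw).2.2⟩

/-- Even interior: one vertex is removed for each odd fibre. -/
theorem exists_evenInterior {p : V → V} (A : Finset V) :
    ∃ B ⊆ A, EvenFib p B ∧ B.card + (oddPar p A).card = A.card ∧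
      ∀ w ∈ oddPar p A, ∃ x ∈ A \ B, p x = w := by
  have hex : ∀ w, ∃ v, w ∈ oddPar p A → v ∈ A ∧ p v = w := by
    intro w
    by_cases hw : w ∈ oddPar p A
    · have h1 := mem_oddPar.1 hw
      obtain ⟨v, hv⟩ := card_pos.1 h1.pos
      rw [mem_filter] at hv
      exact ⟨v, fun _ => hv⟩
    · exact ⟨w, fun h => (hw h).elim⟩
  choose μ hμ using hex
  have hinj : Set.InjOn μ (oddPar p A) := by
    intro a ha b hb hab
    rw [← (hμ a ha).2, ← (hμ b hb).2, hab]
  have hsub : (oddPar p A).image μ ⊆ A := by
    intro v hv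
    obtain ⟨w, hw, rfl⟩ := mem_image.1 hv
    exact (hμ w hw).1
  refine ⟨A \ (oddPar p A).image μ, sdiff_subset, ?_, ?_, ?_⟩
  · intro w
    have h1 : (A \ (oddPar p A).image μ).filter (fun v => p v = w)
        = A.filter (fun v => p v = w) \ ((oddPar p A).image μ).filter (fun v => p v = w) := by
      ext v; simp only [mem_filter, mem_sdiff]; tauto
    rw [h1, card_sdiff_of_subset (filter_subset_filter _ hsub)]
    by_cases hw : w ∈ oddPar p A
    · have : ((oddPar p A).image μ).filter (fun v => p v = w) = {μ w} := by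
        ext v
        rw [mem_filter, mem_image, mem_singleton]
        constructor
        · rintro ⟨⟨z, hz, rfl⟩, h⟩
          rw [(hμ z hz).2] at h; rw [h]
        · rintro rfl
          exact ⟨⟨w, hw, rfl⟩, (hμ w hw).2⟩
      rw [this, card_singleton]
      obtain ⟨k, hk⟩ := mem_oddPar.1 hw
      exact ⟨k, by omega⟩
    · have : ((oddPar p A).image μ).filter (fun v => p v = w) = ∅ := by
        apply filter_false_of_mem
        intro v hv h
        obtain ⟨z, hz, rfl⟩ := mem_image.1 hv
        rw [(hμ z hz).2] at h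
        exact hw (h ▸ hz)
      rw [this, card_empty, Nat.sub_zero]
      rw [mem_oddPar] at hw
      exact Nat.not_odd_iff_even.1 hw
  · rw [card_sdiff_of_subset hsub, card_image_of_injOn hinj]
    have := card_oddPar_le p A
    omega
  · intro w hw
    refine ⟨μ w, ?_, (hμ w hw).2⟩
    rw [sdiff_sdiff_right_self]
    exact mem_inter.2 ⟨(hμ w hw).1, mem_image_of_mem μ hw⟩

end evenclosure

section core

variable {V : Type*} [Fintype V] [DecidableEq V] {T : SimpleGraph V} [DecidableRel T.Adj]

/-- If all the non-leaves (and the root) lie in a closed labelled set, the whole tree can be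
labelled. -/
theorem plab_finish (hT : T.IsTree) (r : V) (hodd : ∀ v, Odd (T.degree v)) {n : ℕ}
    (hc : Fintype.card V = 2 ^ n) {E : Finset V} (hE : Closed (par hT r) r E) {k : ℕ}
    (hk : 1 ≤ k) (hcE : E.card = 2 ^ k) (hin : ∀ v, T.degree v ≠ 1 → v ∈ E)
    (hlab : PLab (par hT r) r E (Fin k → ZMod 2)) :
    PLab (par hT r) r univ (Fin n → ZMod 2) := by
  refine plab_extend' hE (closed_univ hT r hodd) (subset_univ E) hk hcE
    (by rw [card_univ, hc]) ?_ hlab
  intro v _
  by_cases hv : par hT r v = r
  · rw [hv]; exact hE.root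
  · apply hin
    have h1 := card_children hT r (par hT r v) hv
    have h2 : 0 < (univ.filter (fun u => par hT r u = par hT r v)).card :=
      card_pos.2 ⟨v, by simp⟩
    omega

/-- A vertex other than the root is a leaf iff it has no children. -/
theorem degree_eq_one_iff (hT : T.IsTree) (r v : V) (hv : v ≠ r) :
    T.degree v = 1 ↔ univ.filter (fun u => par hT r u = v) = ∅ := by
  have h1 := card_children hT r v hv
  rw [← card_eq_zero]
  omega

theorem two_le_children (hT : T.IsTree) (r v : V) (hodd : ∀ v, Odd (T.degree v)) (hv : v ≠ r)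
    (h1 : T.degree v ≠ 1) : 2 ≤ (univ.filter (fun u => par hT r u = v)).card := by
  have h2 := card_children hT r v hv
  obtain ⟨k, hk⟩ := hodd v
  omega

/-- Condition (4): a vertex adjacent to at least `2^(n-1) - 1` leaves. -/
theorem plab_half (hT : T.IsTree) (r : V) (hodd : ∀ v, Odd (T.degree v)) {n : ℕ}
    (hc : Fintype.card V = 2 ^ n)
    (h : 2 ^ n ≤ 2 * ((univ.filter (fun v => T.Adj r v ∧ T.degree v = 1)).card + 1)) :
    PLab (par hT r) r univ (Fin n → ZMod 2) := by
  set p := par hT r with hp
  set F : Finset V := univ.filter (fun v => T.Adj r v ∧ T.degree v = 1 ∧ p v = r) with hF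
  -- every leaf neighbour of the root different from its parent has parent r
  have hadjr : ∀ v, T.Adj r v → p v = r := by
    intro v hv
    rcases (adj_iff_par hT r r v).1 hv with ⟨h1, _⟩ | ⟨_, h2⟩
    · exact (h1 rfl).elim
    · exact h2
  have hFeq : F = univ.filter (fun v => T.Adj r v ∧ T.degree v = 1) := by
    rw [hF]; apply filter_congr
    intro v _
    exact ⟨fun h => ⟨h.1, h.2.1⟩, fun h => ⟨h.1, h.2, hadjr v h.1⟩⟩
  rw [← hFeq] at h
  set E : Finset V := univ \ F with hE
  have hEF : Disjoint E F := sdiff_disjoint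
  have hun : E ∪ F = univ := by rw [hE, sdiff_union_of_subset (subset_univ F)]
  have hcard : E.card + F.card = 2 ^ n := by
    rw [← card_union_of_disjoint hEF, hun, card_univ, hc]
  have hcl : Closed p r E := by
    refine ⟨?_, ?_, ?_⟩
    · rw [hE, mem_sdiff, hF, mem_filter]
      refine ⟨mem_univ _, fun h => ?_⟩
      exact T.loopless.irrefl r h.2.1
    · intro v hv
      rw [hE, mem_sdiff] at hv ⊢
      refine ⟨mem_univ _, ?_⟩
      intro h1
      rw [hF, mem_filter] at h1
      obtain ⟨_, h2, h3, h4⟩ := h1
      have h5 : p v ≠ r := fun h => T.loopless.irrefl r (h ▸ h2)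
      rw [degree_eq_one_iff hT r _ h5] at h3
      have : v ∈ univ.filter (fun u => par hT r u = p v) := by simp [hp]
      rw [h3] at this
      simp at this
    · intro w hw
      have h1 : E.filter (fun v => p v = w) = univ.filter (fun v => p v = w) := by
        ext v
        simp only [hE, hF, mem_filter, mem_sdiff, mem_univ, true_and]
        constructor
        · exact fun h => h.2
        · intro h
          refine ⟨fun h2 => hw ?_, h⟩
          rw [← h, h2.2.2]
      rw [h1]
      exact (closed_univ hT r hodd).even w hw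
  have hJ : Fintype.card (Fin n → ZMod 2) = 2 ^ n := by simp
  have hlab : PLab p r E (Fin n → ZMod 2) := by
    refine exists_plab (add_self_fin n) (par_root hT r) (d := fun v => T.dist r v)
      (fun v hv => dist_par hT r v hv) E.card E rfl hcl ?_ ?_
    · rw [hJ]; omega
    · rw [hJ]; omega
  have := plab_union hcl.root hcl.parent hlab F hEF (fun v hv => (mem_filter.1 hv).2.2.2)
    (by rw [hJ]; omega)
  rwa [hun] at this

end core

end Pool.Agent.H57.SS
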