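import Mathlib
import Pool.Agent.H57.SS.Core

/-!
# Trees in which the root has large degree compared with the number of deep non-leaves
-/

set_option autoImplicit false

open Finset

namespace Pool.Agent.H57.SS

variable {V : Type*} [Fintype V] [DecidableEq V] {T : SimpleGraph V} [DecidableRel T.Adj]

omit [DecidableRel T.Adj] in
theorem two_le_dist_iff (hT : T.IsTree) (r v : V) : 2 ≤ T.dist r v ↔ par hT r v ≠ r := by
  constructor
  · intro h hp
    by_cases hv : v = r
    · subst hv; simp at h
    · have h1 := dist_par hT r v hv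
      rw [hp, SimpleGraph.dist_self] at h1
      omega
  · intro hp
    have hv : v ≠ r := by
      rintro rfl
      exact hp (par_root hT v)
    have h1 := dist_par hT r v hv
    have h2 := hT.connected.pos_dist_of_ne (u := r) (v := par hT r v) hp.symm
    omega

/-- Non-leaves at distance at least two from `r`. -/
noncomputable def deep (T : SimpleGraph V) [DecidableRel T.Adj] (r : V) : Finset V :=
  univ.filter (fun v => T.degree v ≠ 1 ∧ 2 ≤ T.dist r v)

theorem evenFib_nonchildren (hT : T.IsTree) (r : V) (hodd : ∀ v, Odd (T.degree v)) :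
    EvenFib (par hT r) (univ.filter (fun v => par hT r v ≠ r)) := by
  intro w
  rw [filter_filter]
  by_cases hw : w = r
  · have : univ.filter (fun v => par hT r v ≠ r ∧ par hT r v = w) = ∅ := by
      apply filter_false_of_mem
      rintro v _ ⟨h1, h2⟩
      exact h1 (h2.trans hw)
    rw [this]; simp
  · have : univ.filter (fun v => par hT r v ≠ r ∧ par hT r v = w)
        = univ.filter (fun v => par hT r v = w) := by
      apply filter_congr
      intro v _
      exact ⟨fun h => h.2, fun h => ⟨h ▸ hw, h⟩⟩
    rw [this]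
    exact (closed_univ hT r hodd).even w hw

/-- A parent of a vertex, other than the root, is not a leaf. -/
theorem degree_par_ne_one (hT : T.IsTree) (r v : V) (h : par hT r v ≠ r) :
    T.degree (par hT r v) ≠ 1 := by
  intro h1
  rw [degree_eq_one_iff hT r _ h] at h1
  have : v ∈ univ.filter (fun u => par hT r u = par hT r v) := by simp
  rw [h1] at this
  simp at this

theorem filter_union3 {U : Type*} [DecidableEq U] (A B C : Finset U) (q : U → Prop)
    [DecidablePred q] : (A ∪ (B ∪ C)).filter q = A.filter q ∪ (B.filter q ∪ C.filter q) := by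
  rw [filter_union, filter_union]

theorem plab_deep (hT : T.IsTree) (r : V) (hodd : ∀ v, Odd (T.degree v)) {n : ℕ}
    (hc : Fintype.card V = 2 ^ n) (B : Finset V)
    (hB : B = ((deep T r).image (par hT r)).filter (fun u => par hT r u = r))
    (h1 : 4 * B.card + 6 * (deep T r).card ≤ T.degree r + 4)
    (h2 : 2 * (deep T r).card + 1 ≤ T.degree r) :
    PLab (par hT r) r univ (Fin n → ZMod 2) := by
  set p := par hT r with hp
  have hpr : p r = r := par_root hT r
  set A := deep T r with hA
  have hmemA : ∀ v, v ∈ A ↔ T.degree v ≠ 1 ∧ p v ≠ r := by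
    intro v
    rw [hA, deep, mem_filter, two_le_dist_iff hT r v]
    simp [hp]
  set X : Finset V := univ.filter (fun v => p v ≠ r) with hX
  have hXe : EvenFib p X := evenFib_nonchildren hT r hodd
  have hAX : A ⊆ X := fun v hv => mem_filter.2 ⟨mem_univ v, ((hmemA v).1 hv).2⟩
  obtain ⟨M, hMX, hAM, hAMe, hMc, hMp, _⟩ := exists_evenClosure hXe hAX
  have hMle : M.card ≤ A.card := by rw [hMc]; exact card_oddPar_le p A
  have hBle : B.card ≤ A.card := by
    rw [hB]; exact (card_le_card (filter_subset _ _)).trans card_image_le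
  have hmemB : ∀ u, u ∈ B ↔ (∃ v ∈ A, p v = u) ∧ p u = r := by
    intro u; rw [hB, mem_filter, mem_image]
  set S := A ∪ M with hS
  have hSc : S.card = A.card + M.card := card_union_of_disjoint hAM
  have hSX : S ⊆ X := union_subset hAX hMX
  have hSeven : Even S.card := hAMe.card_even
  have hSp : ∀ v ∈ S, p v ≠ r := fun v hv => (mem_filter.1 (hSX hv)).2
  have hBp : ∀ v ∈ B, p v = r := fun v hv => ((hmemB v).1 hv).2
  have hBr : r ∉ B := by
    intro h
    obtain ⟨⟨v, hv, hvr⟩, _⟩ := (hmemB r).1 h
    exact ((hmemA v).1 hv).2 hvr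
  have hBint : ∀ v ∈ B, T.degree v ≠ 1 := by
    intro u hu
    obtain ⟨⟨v, hv, hvr⟩, _⟩ := (hmemB u).1 hu
    rw [← hvr]
    exact degree_par_ne_one hT r v ((hmemA v).1 hv).2
  -- parents of elements of A
  have hparA : ∀ v ∈ A, p v ∈ B ∪ S := by
    intro v hv
    by_cases h : p (p v) = r
    · exact mem_union_left _ ((hmemB _).2 ⟨⟨v, hv, rfl⟩, h⟩)
    · apply mem_union_right
      apply mem_union_left
      exact (hmemA _).2 ⟨degree_par_ne_one hT r v ((hmemA v).1 hv).2, h⟩
  have hparS : ∀ v ∈ S, p v ∈ B ∪ S := by
    intro v hv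
    rw [hS, mem_union] at hv
    rcases hv with hv | hv
    · exact hparA v hv
    · have h3 := hMp v hv
      have h4 := (mem_filter.1 h3).1
      obtain ⟨u, hu, hup⟩ := mem_image.1 h4
      rw [← hup]
      exact hparA u hu
  have hBS : Disjoint B S := by
    rw [Finset.disjoint_left]
    intro v hv hv'
    exact hSp v hv' (hBp v hv)
  have hrBS : r ∉ B ∪ S := by
    rw [mem_union]
    rintro (h | h)
    · exact hBr h
    · exact hSp r h hpr
  set D := insert r (B ∪ S) with hD
  have hDc : D.card = 1 + B.card + S.card := by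
    rw [hD, card_insert_of_notMem hrBS, card_union_of_disjoint hBS]; ring
  have hDfil : ∀ w, w ≠ r → D.filter (fun v => p v = w) = S.filter (fun v => p v = w) := by
    intro w hw
    ext v
    simp only [hD, mem_filter, mem_insert, mem_union]
    constructor
    · rintro ⟨rfl | h | h, h3⟩
      · exact (hw (h3 ▸ hpr)).elim
      · exact (hw (h3 ▸ hBp v h)).elim
      · exact ⟨h, h3⟩
    · rintro ⟨h, h3⟩
      exact ⟨Or.inr (Or.inr h), h3⟩
  have hDcl : Closed p r D := by
    refine ⟨mem_insert_self _ _, ?_, ?_⟩
    · intro v hv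
      rw [hD, mem_insert, mem_union] at hv
      rcases hv with rfl | hv | hv
      · rw [hpr]; exact mem_insert_self _ _
      · rw [hBp v hv]; exact mem_insert_self _ _
      · exact mem_insert_of_mem (hparS v hv)
    · intro w hw
      rw [hDfil w hw]
      exact hAMe w
  -- the exponent k
  set c := T.degree r with hcdef
  have hcodd : Odd c := hodd r
  set k := Nat.log 2 (1 + S.card + c) with hk
  have hk1 : 2 ^ k ≤ 1 + S.card + c := Nat.pow_log_le_self 2 (by omega)
  have hk2 : 1 + S.card + c < 2 ^ (k + 1) := Nat.lt_pow_succ_log_self (by norm_num) _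
  have hkpos : 1 ≤ k := by
    by_contra hcon
    have : k = 0 := by omega
    rw [this] at hk2
    have := hcodd.pos
    omega
  have hpow : 2 ^ (k + 1) = 2 * 2 ^ k := by ring
  have hDle : D.card ≤ 2 ^ k := by
    obtain ⟨s, hs⟩ := hSeven
    have hp1 : 0 < 2 ^ k := by positivity
    by_cases hs0 : s = 0
    · have : A.card = 0 := by omega
      omega
    · omega
  have hDlt : 2 * D.card < 2 ^ k + 4 := by
    have hp1 : 0 < 2 ^ k := by positivity
    omega
  have hJ : Fintype.card (Fin k → ZMod 2) = 2 ^ k := by simp
  have hDlab : PLab p r D (Fin k → ZMod 2) := by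
    refine exists_plab (add_self_fin k) hpr (d := fun v => T.dist r v)
      (fun v hv => dist_par hT r v hv) D.card D rfl hDcl ?_ ?_
    · rw [hJ]; exact hDle
    · rw [hJ]; exact hDlt
  -- the children of the root which are not in B
  set C : Finset V := (univ.filter (fun v => p v = r)).erase r with hC
  have hCc : C.card = c := by
    rw [hC, ← neighborFinset_root hT r, SimpleGraph.card_neighborFinset_eq_degree]
  have hBC : B ⊆ C := by
    intro v hv
    rw [hC, mem_erase, mem_filter]
    exact ⟨fun h => hBr (h ▸ hv), mem_univ v, hBp v hv⟩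
  set R0 := C \ B with hR0
  have hR0c : R0.card = c - B.card := by rw [hR0, card_sdiff_of_subset hBC, hCc]
  have hBlec : B.card ≤ c := by rw [← hCc]; exact card_le_card hBC
  set IR := R0.filter (fun v => T.degree v ≠ 1) with hIR
  have hR0p : ∀ v ∈ R0, p v = r ∧ v ≠ r ∧ v ∉ B := by
    intro v hv
    rw [hR0, mem_sdiff, hC, mem_erase, mem_filter] at hv
    exact ⟨hv.1.2.2, hv.1.1, hv.2⟩
  obtain ⟨F, hFR0, hFc, hFor⟩ : ∃ F ⊆ R0, F.card = 2 ^ k - D.card ∧ (IR ⊆ F ∨ F ⊆ IR) := by
    by_cases hcase : 2 ^ k - D.card ≤ IR.card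
    · obtain ⟨F, hF1, hF2⟩ := exists_subset_card_eq hcase
      exact ⟨F, hF1.trans (filter_subset _ _), hF2, Or.inr hF1⟩
    · push Not at hcase
      obtain ⟨F, hF1, hF2, hF3⟩ := exists_subsuperset_card_eq (s := IR) (t := R0)
        (filter_subset _ _) hcase.le (by omega)
      exact ⟨F, hF2, hF3, Or.inl hF1⟩
  have hDF : Disjoint D F := by
    rw [Finset.disjoint_right]
    intro v hv hv'
    obtain ⟨h3, h4, h5⟩ := hR0p v (hFR0 hv)
    rw [hD, mem_insert, mem_union] at hv'
    rcases hv' with h | h | h
    · exact h4 h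
    · exact h5 h
    · exact hSp v h h3
  set E0 := D ∪ F with hE0
  have hE0c : E0.card = 2 ^ k := by
    rw [hE0, card_union_of_disjoint hDF, hFc]; omega
  have hE0lab : PLab p r E0 (Fin k → ZMod 2) :=
    plab_union hDcl.root hDcl.parent hDlab F hDF (fun v hv => (hR0p v (hFR0 hv)).1)
      (by rw [hJ, hFc]; omega)
  have hE0fil : ∀ w, w ≠ r → E0.filter (fun v => p v = w) = S.filter (fun v => p v = w) := by
    intro w hw
    rw [hE0, filter_union, hDfil w hw]
    have : F.filter (fun v => p v = w) = ∅ := by
      apply filter_false_of_mem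
      intro v hv h
      exact hw (h ▸ (hR0p v (hFR0 hv)).1)
    rw [this, union_empty]
  have hE0cl : Closed p r E0 := by
    refine ⟨mem_union_left _ hDcl.root, ?_, ?_⟩
    · intro v hv
      rw [hE0, mem_union] at hv
      rcases hv with hv | hv
      · exact mem_union_left _ (hDcl.parent v hv)
      · rw [(hR0p v (hFR0 hv)).1]; exact mem_union_left _ hDcl.root
    · intro w hw
      rw [hE0fil w hw]
      exact hAMe w
  have hAE0 : A ⊆ E0 := fun v hv => by
    rw [hE0, mem_union, hD, mem_insert, mem_union, hS, mem_union]; tauto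
  have hBE0 : B ⊆ E0 := fun v hv => by
    rw [hE0, mem_union, hD, mem_insert, mem_union]; tauto
  have hFE0 : F ⊆ E0 := fun v hv => by rw [hE0, mem_union]; tauto
  -- classification of non-leaves
  have hclass : ∀ v, T.degree v ≠ 1 → v = r ∨ v ∈ A ∨ v ∈ B ∨ v ∈ IR := by
    intro v hv
    by_cases h3 : v = r
    · exact Or.inl h3
    · right
      by_cases h4 : p v = r
      · right
        by_cases h5 : v ∈ B
        · exact Or.inl h5
        · right
          rw [hIR, mem_filter, hR0, mem_sdiff, hC, mem_erase, mem_filter]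
          exact ⟨⟨⟨h3, mem_univ v, h4⟩, h5⟩, hv⟩
      · exact Or.inl ((hmemA v).2 ⟨hv, h4⟩)
  rcases hFor with hFor | hFor
  · refine plab_finish hT r hodd hc hE0cl hkpos hE0c ?_ hE0lab
    intro v hv
    rcases hclass v hv with rfl | h | h | h
    · exact hE0cl.root
    · exact hAE0 h
    · exact hBE0 h
    · exact hFE0 (hFor h)
  · -- second stage
    set R := R0 \ F with hR
    have hRc : R.card = c - B.card - (2 ^ k - D.card) := by
      rw [hR, card_sdiff_of_subset hFR0, hR0c, hFc]
    have hFle : F.card ≤ R0.card := card_le_card hFR0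
    set A1 : Finset V := univ.filter (fun v => p v ∈ E0.erase r) with hA1
    set N' := A1 \ E0 with hN'
    have hN'fil : ∀ w, N'.filter (fun v => p v = w)
        = if w ∈ E0.erase r then univ.filter (fun v => p v = w) \ E0.filter (fun v => p v = w)
          else ∅ := by
      intro w
      split_ifs with hw
      · ext v
        simp only [hN', hA1, mem_filter, mem_sdiff, mem_univ, true_and]
        constructor
        · rintro ⟨⟨h3, h4⟩, h5⟩
          exact ⟨h5, fun h => h4 h.1⟩
        · rintro ⟨h3, h4⟩
          exact ⟨⟨h3 ▸ hw, fun h => h4 ⟨h, h3⟩⟩, h3⟩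
      · apply filter_false_of_mem
        intro v hv h
        rw [hN', mem_sdiff, hA1, mem_filter] at hv
        exact hw (h ▸ hv.1.2)
    have hN'e : EvenFib p N' := by
      intro w
      rw [hN'fil w]
      split_ifs with hw
      · rw [card_sdiff_of_subset (filter_subset_filter _ (subset_univ _))]
        have hwr := (mem_erase.1 hw).1
        obtain ⟨a, ha⟩ := (closed_univ hT r hodd).even w hwr
        obtain ⟨b, hb⟩ := hE0cl.even w hwr
        exact ⟨a - b, by
          change (univ.filter (fun v => p v = w)).card = a + a at ha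
          omega⟩
      · simp
    have hA1E0 : A1 ∩ E0 = S := by
      ext v
      rw [mem_inter, hA1, mem_filter]
      constructor
      · rintro ⟨⟨_, h3⟩, h4⟩
        rw [hE0, mem_union, hD, mem_insert, mem_union] at h4
        have h5 := (mem_erase.1 h3).1
        rcases h4 with (h4 | h4 | h4) | h4
        · rw [h4, hpr] at h5; exact (h5 rfl).elim
        · exact (h5 (hBp v h4)).elim
        · exact h4
        · exact (h5 (hR0p v (hFR0 h4)).1).elim
      · intro hv
        refine ⟨⟨mem_univ v, ?_⟩, ?_⟩
        · rw [mem_erase]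
          refine ⟨hSp v hv, ?_⟩
          rw [hE0, mem_union, hD, mem_insert]
          exact Or.inl (Or.inr (hparS v hv))
        · rw [hE0, mem_union, hD, mem_insert, mem_union]; tauto
    have hN'c : N'.card + S.card = A1.card := by
      rw [hN', ← hA1E0, add_comm, inter_comm]
      have := card_sdiff_add_card_inter A1 E0
      rw [inter_comm]
      omega
    -- lower bound for A1
    set W := B ∪ F ∪ A with hW
    have hWc : W.card = B.card + F.card + A.card := by
      rw [hW, card_union_of_disjoint, card_union_of_disjoint]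
      · rw [Finset.disjoint_right]
        intro v hv; exact (hR0p v (hFR0 hv)).2.2
      · rw [Finset.disjoint_right]
        intro v hv hv'
        rw [mem_union] at hv'
        have h3 := ((hmemA v).1 hv).2
        rcases hv' with h | h
        · exact h3 (hBp v h)
        · exact h3 (hR0p v (hFR0 h)).1
    have hWE : W ⊆ E0.erase r := by
      intro v hv
      rw [hW, mem_union, mem_union] at hv
      rw [mem_erase]
      rcases hv with (hv | hv) | hv
      · exact ⟨fun h => hBr (h ▸ hv), hBE0 hv⟩
      · exact ⟨(hR0p v (hFR0 hv)).2.1, hFE0 hv⟩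
      · refine ⟨?_, hAE0 hv⟩
        rintro rfl
        exact ((hmemA v).1 hv).2 hpr
    have hWint : ∀ v ∈ W, T.degree v ≠ 1 := by
      intro v hv
      rw [hW, mem_union, mem_union] at hv
      rcases hv with (hv | hv) | hv
      · exact hBint v hv
      · exact (mem_filter.1 (hFor hv)).2
      · exact ((hmemA v).1 hv).1
    have hA1c : 2 * W.card ≤ A1.card := by
      have h3 : A1.card = ∑ w ∈ E0.erase r, (A1.filter (fun v => p v = w)).card :=
        card_eq_sum_card_fiberwise (fun v hv => (mem_filter.1 hv).2)
      rw [h3]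
      calc 2 * W.card = ∑ w ∈ W, 2 := by rw [sum_const, smul_eq_mul, mul_comm]
        _ ≤ ∑ w ∈ W, (A1.filter (fun v => p v = w)).card := by
            apply sum_le_sum
            intro w hw
            have h4 : A1.filter (fun v => p v = w) = univ.filter (fun v => p v = w) := by
              ext v
              simp only [hA1, mem_filter, mem_univ, true_and]
              exact ⟨fun h => h.2, fun h => ⟨h ▸ hWE hw, h⟩⟩
            rw [h4]
            exact two_le_children hT r w hodd (mem_erase.1 (hWE hw)).1 (hWint w hw)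
        _ ≤ ∑ w ∈ E0.erase r, (A1.filter (fun v => p v = w)).card :=
            sum_le_sum_of_subset hWE
    -- choice of Y
    obtain ⟨s, hs⟩ := hSeven
    obtain ⟨t, ht⟩ := hcodd
    obtain ⟨q, hq⟩ : ∃ q, 2 ^ k - R.card = 2 * q := by
      refine ⟨2 ^ k - t - 1 - s, ?_⟩
      rw [hRc, hDc]
      omega
    obtain ⟨Y, hYN, hYc, hYe⟩ := exists_evenFib_subset hN'e q (by rw [← hq]; omega)
    have hYE0 : Disjoint E0 Y := by
      rw [Finset.disjoint_right]
      intro v hv hv'
      exact (mem_sdiff.1 (hYN hv)).2 hv'
    have hYp : ∀ v ∈ Y, p v ∈ E0 ∧ p v ≠ r := by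
      intro v hv
      have := (mem_sdiff.1 (hYN hv)).1
      rw [hA1, mem_filter, mem_erase] at this
      exact ⟨this.2.2, this.2.1⟩
    have hRE0 : Disjoint E0 R := by
      rw [Finset.disjoint_right]
      intro v hv hv'
      rw [hR, mem_sdiff] at hv
      obtain ⟨h3, h4, h5⟩ := hR0p v hv.1
      rw [hE0, mem_union, hD, mem_insert, mem_union] at hv'
      rcases hv' with (h | h | h) | h
      · exact h4 h
      · exact h5 h
      · exact hSp v h h3
      · exact hv.2 h
    have hRY : Disjoint R Y := by
      rw [Finset.disjoint_right]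
      intro v hv hv'
      rw [hR, mem_sdiff] at hv'
      exact (hYp v hv).2 (hR0p v hv'.1).1
    set E1 := E0 ∪ (R ∪ Y) with hE1
    have hmemE1 : ∀ v, v ∈ E1 ↔ v ∈ E0 ∨ v ∈ R ∨ v ∈ Y := fun v =>
      (mem_union (s := E0) (t := R ∪ Y)).trans (or_congr Iff.rfl mem_union)
    have hE1c : E1.card = 2 ^ (k + 1) := by
      rw [hE1, card_union_of_disjoint, card_union_of_disjoint hRY, hE0c, hYc]
      · omega
      · rw [disjoint_union_right]; exact ⟨hRE0, hYE0⟩
    have hE1p : ∀ v ∈ E1, p v ∈ E0 := by
      intro v hv
      rw [hmemE1] at hv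
      rcases hv with hv | hv | hv
      · exact hE0cl.parent v hv
      · rw [hR, mem_sdiff] at hv
        rw [(hR0p v hv.1).1]; exact hE0cl.root
      · exact (hYp v hv).1
    have hE0E1 : E0 ⊆ E1 := subset_union_left
    have hE1cl : Closed p r E1 := by
      refine ⟨hE0E1 hE0cl.root, fun v hv => hE0E1 (hE1p v hv), ?_⟩
      intro w hw
      have h3 : E1.filter (fun v => p v = w)
          = E0.filter (fun v => p v = w) ∪ Y.filter (fun v => p v = w) := by
        have : R.filter (fun v => p v = w) = ∅ := by
          apply filter_false_of_mem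
          intro v hv h
          rw [hR, mem_sdiff] at hv
          exact hw (h ▸ (hR0p v hv.1).1)
        have h4 : E1.filter (fun v => p v = w) = E0.filter (fun v => p v = w) ∪
            (R.filter (fun v => p v = w) ∪ Y.filter (fun v => p v = w)) :=
          filter_union3 _ _ _ _
        rw [h4, this, empty_union]
      rw [h3, card_union_of_disjoint (disjoint_filter_filter hYE0)]
      exact (hE0cl.even w hw).add (hYe w)
    have hE1lab : PLab p r E1 (Fin (k + 1) → ZMod 2) :=
      plab_extend' hE0cl hE1cl hE0E1 hkpos hE0c hE1c hE1p hE0lab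
    refine plab_finish hT r hodd hc hE1cl (by omega) hE1c ?_ hE1lab
    intro v hv
    rcases hclass v hv with rfl | h | h | h
    · exact hE1cl.root
    · exact hE0E1 (hAE0 h)
    · exact hE0E1 (hBE0 h)
    · by_cases hvF : v ∈ F
      · exact hE0E1 (hFE0 hvF)
      · rw [hmemE1]
        exact Or.inr (Or.inl (mem_sdiff.2 ⟨(mem_filter.1 h).1, hvF⟩))

end Pool.Agent.H57.SS
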