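import Mathlib
import Pool.Agent.H57.SS.Deep

/-!
# Trees of diameter at most five
-/

set_option autoImplicit false

open Finset

namespace Pool.Agent.H57.SS

section center

variable {V : Type*} [Fintype V] [DecidableEq V] {T : SimpleGraph V}

/-- The ancestor of `v` at distance one from the root. -/
noncomputable def branch (hT : T.IsTree) (r v : V) : V := (par hT r)^[T.dist r v - 1] v

theorem branch_par (hT : T.IsTree) (r v : V) (h : par hT r v ≠ r) :
    branch hT r (par hT r v) = branch hT r v := by
  have hv : v ≠ r := by
    rintro rfl
    exact h (par_root hT v)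
  have h1 := dist_par hT r v hv
  have h2 := hT.connected.pos_dist_of_ne (u := r) (v := par hT r v) h.symm
  unfold branch
  have h3 : T.dist r v - 1 = (T.dist r (par hT r v) - 1) + 1 := by omega
  rw [h3, Function.iterate_succ_apply]

theorem branch_adj (hT : T.IsTree) (r a b : V) (ha : a ≠ r) (hb : b ≠ r) (h : T.Adj a b) :
    branch hT r a = branch hT r b := by
  rcases (adj_iff_par hT r a b).1 h with ⟨_, h1⟩ | ⟨_, h1⟩
  · rw [← branch_par hT r a (by rw [h1]; exact hb), h1]
  · rw [← branch_par hT r b (by rw [h1]; exact ha), h1]

theorem branch_walk (hT : T.IsTree) (r : V) {a b : V} (w : T.Walk a b) (h : r ∉ w.support) :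
    branch hT r a = branch hT r b := by
  induction w with
  | nil => rfl
  | @cons a c b hadj q ih =>
    rw [SimpleGraph.Walk.support_cons, List.mem_cons, not_or] at h
    have hc : c ≠ r := by
      rintro rfl
      exact h.2 (SimpleGraph.Walk.start_mem_support q)
    rw [branch_adj hT r a c (fun h' => h.1 h'.symm) hc hadj]
    exact ih h.2

theorem dist_of_branch_ne (hT : T.IsTree) (r : V) {a b : V}
    (h : branch hT r a ≠ branch hT r b) : T.dist a r + T.dist r b ≤ T.dist a b := by
  obtain ⟨w, hw⟩ := hT.connected.exists_walk_length_eq_dist a b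
  have hr : r ∈ w.support := by
    by_contra hcon
    exact h (branch_walk hT r w hcon)
  have h1 := congrArg SimpleGraph.Walk.length (w.take_spec hr)
  rw [SimpleGraph.Walk.length_append] at h1
  have h2 := SimpleGraph.dist_le (w.takeUntil r hr)
  have h3 := SimpleGraph.dist_le (w.dropUntil r hr)
  omega

theorem branch_spec (hT : T.IsTree) (r : V) : ∀ (n : ℕ) (v : V), T.dist r v = n + 1 →
    branch hT r v ≠ r ∧ par hT r (branch hT r v) = r ∧ T.dist (branch hT r v) v ≤ n := by
  intro n
  induction n with
  | zero =>
    intro v hv
    have hvr : v ≠ r := by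
      rintro rfl
      simp at hv
    have h1 := dist_par hT r v hvr
    have h2 : T.dist r (par hT r v) = 0 := by omega
    have h3 : par hT r v = r := ((hT.connected.dist_eq_zero_iff).1 h2).symm
    have h4 : branch hT r v = v := by simp [branch, hv]
    rw [h4]
    exact ⟨hvr, h3, by simp⟩
  | succ n ih =>
    intro v hv
    have hvr : v ≠ r := by
      rintro rfl
      simp at hv
    have h1 := dist_par hT r v hvr
    have h2 : T.dist r (par hT r v) = n + 1 := by omega
    have h3 : par hT r v ≠ r := by
      intro h
      rw [h, SimpleGraph.dist_self] at h2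
      omega
    obtain ⟨h4, h5, h6⟩ := ih _ h2
    rw [branch_par hT r v h3] at h4 h5 h6
    refine ⟨h4, h5, ?_⟩
    have h7 : T.dist (branch hT r v) v
        ≤ T.dist (branch hT r v) (par hT r v) + T.dist (par hT r v) v :=
      hT.connected.dist_triangle
    have h8 : T.dist (par hT r v) v = 1 :=
      SimpleGraph.dist_eq_one_iff_adj.2 (adj_par hT r v hvr).symm
    omega

variable [DecidableRel T.Adj]

/-- The two centres of a tree of diameter at most five. -/
theorem exists_centers (hT : T.IsTree) (hodd : ∀ v, Odd (T.degree v))
    (hdiam : ∀ u v, T.dist u v ≤ 5) :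
    ∃ r z, z ≠ r ∧ par hT r z = r ∧
      ∀ v, T.degree v ≠ 1 → par hT r v = r ∨ par hT r v = z := by
  have hne : Nonempty V := hT.connected.nonempty
  obtain ⟨r, _, hr⟩ := exists_min_image (univ : Finset V)
    (fun r => univ.sup (fun v => T.dist r v)) univ_nonempty
  have hecc : ∀ v, T.dist r v ≤ 3 := by
    by_contra hcon
    push Not at hcon
    obtain ⟨v0, hv0⟩ := hcon
    obtain ⟨y, _, hy⟩ := exists_mem_eq_sup (univ : Finset V) univ_nonempty (fun v => T.dist r v)
    set e := univ.sup (fun v => T.dist r v) with he
    have hle : ∀ v, T.dist r v ≤ e := fun v => le_sup (f := fun v => T.dist r v) (mem_univ v)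
    have he4 : 4 ≤ e := le_trans hv0 (hle v0)
    obtain ⟨h1, h2, h3⟩ := branch_spec hT r (e - 1) y (by omega)
    set r1 := branch hT r y with hr1
    obtain ⟨y', _, hy'⟩ := exists_mem_eq_sup (univ : Finset V) univ_nonempty
      (fun v => T.dist r1 v)
    have h4 : e ≤ T.dist r1 y' := by
      rw [← hy']
      exact hr r1 (mem_univ r1)
    have h5 : T.dist r1 r = 1 := by
      have := adj_par hT r r1 h1
      rw [h2] at this
      exact SimpleGraph.dist_eq_one_iff_adj.2 this
    have h6 : T.dist r1 y' ≤ T.dist r1 r + T.dist r y' := hT.connected.dist_triangle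
    have h7 : branch hT r y ≠ branch hT r y' := by
      intro h
      obtain ⟨_, _, h8⟩ := branch_spec hT r (T.dist r y' - 1) y' (by omega)
      rw [← h, ← hr1] at h8
      have := hle y'
      omega
    have h9 := dist_of_branch_ne hT r h7
    have h10 := hdiam y y'
    rw [T.dist_comm (u := y) (v := r)] at h9
    omega
  by_cases h3 : ∃ v, T.dist r v = 3
  · obtain ⟨v, hv⟩ := h3
    obtain ⟨h1, h2, _⟩ := branch_spec hT r 2 v hv
    refine ⟨r, branch hT r v, h1, h2, ?_⟩
    intro u hu
    by_cases hur : par hT r u = r
    · exact Or.inl hur
    · right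
      have hur' : u ≠ r := by
        rintro rfl
        exact hur (par_root hT u)
      have hch := card_children hT r u hur'
      have : 0 < (univ.filter (fun v => par hT r v = u)).card := by
        have := (hodd u).pos
        omega
      obtain ⟨y, hy⟩ := card_pos.1 this
      rw [mem_filter] at hy
      have hyu : par hT r y ≠ r := by rw [hy.2]; exact hur'
      have hyr : y ≠ r := by
        rintro rfl
        exact hyu (par_root hT y)
      have h4 := dist_par hT r y hyr
      rw [hy.2] at h4
      have h5 := (two_le_dist_iff hT r u).2 hur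
      have h6 := hecc y
      have h7 : branch hT r v = branch hT r y := by
        by_contra hcon
        have h8 := dist_of_branch_ne hT r hcon
        have h9 := hdiam v y
        rw [T.dist_comm (u := v) (v := r)] at h8
        omega
      rw [h7, ← branch_par hT r y hyu, hy.2, ← branch_par hT r u hur]
      have h10 := dist_par hT r u hur'
      have h11 : T.dist r (par hT r u) = 1 := by omega
      simp [branch, h11]
  · push Not at h3
    have hpos := (hodd r).pos
    rw [← SimpleGraph.card_neighborFinset_eq_degree, card_pos] at hpos
    obtain ⟨z, hz⟩ := hpos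
    rw [neighborFinset_root hT r, mem_erase, mem_filter] at hz
    refine ⟨r, z, hz.1, hz.2.2, ?_⟩
    intro u hu
    left
    by_contra hur
    have hur' : u ≠ r := by
      rintro rfl
      exact hur (par_root hT u)
    have hch := card_children hT r u hur'
    have : 0 < (univ.filter (fun v => par hT r v = u)).card := by
      have := (hodd u).pos
      omega
    obtain ⟨y, hy⟩ := card_pos.1 this
    rw [mem_filter] at hy
    have hyr : y ≠ r := by
      rintro rfl
      rw [par_root] at hy
      exact hur' hy.2.symm
    have h4 := dist_par hT r y hyr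
    rw [hy.2] at h4
    have h5 := (two_le_dist_iff hT r u).2 hur
    have h6 := hecc y
    exact h3 y (by omega)

end center

end Pool.Agent.H57.SS
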