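import Mathlib
import Pool.Agent.H57.SS.Diam

/-!
# Trees in which every non-leaf is adjacent or equal to one of two adjacent vertices
-/

set_option autoImplicit false

open Finset

namespace Pool.Agent.H57.SS

section two

variable {V : Type*} [Fintype V] [DecidableEq V] {T : SimpleGraph V} [DecidableRel T.Adj]

/-- Final stage: a closed labelled set `E0` with all non-leaves in `E0 ∪ N1`. -/
theorem plab_stage (hT : T.IsTree) (r : V) (hodd : ∀ v, Odd (T.degree v)) {n : ℕ}
    (hc : Fintype.card V = 2 ^ n) {E0 E1 : Finset V} {k k' : ℕ} (hk : 1 ≤ k) (hkk' : 1 ≤ k')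
    (hE0 : Closed (par hT r) r E0) (hE0c : E0.card = 2 ^ k)
    (hlab : PLab (par hT r) r E0 (Fin k → ZMod 2)) (hsub : E0 ⊆ E1)
    (hE1 : Closed (par hT r) r E1) (hE1c : E1.card = 2 ^ k') (hp : ∀ v ∈ E1, par hT r v ∈ E0)
    (hin : ∀ v, T.degree v ≠ 1 → v ∈ E1) : PLab (par hT r) r univ (Fin n → ZMod 2) :=
  plab_finish hT r hodd hc hE1 hkk' hE1c hin
    (plab_extend' hE0 hE1 hsub hk hE0c hE1c hp hlab)

omit [Fintype V] in
theorem closed_union {p : V → V} {r z : V} (hpr : p r = r) (hpz : p z = r)
    {N : Finset V} (hN : ∀ v ∈ N, v ≠ r ∧ v ≠ z) (hNe : EvenFib p N)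
    (hNp : ∀ v ∈ N, p v ∈ insert r (insert z N)) : Closed p r (insert r (insert z N)) := by
  refine ⟨mem_insert_self _ _, ?_, ?_⟩
  · intro v hv
    rw [mem_insert, mem_insert] at hv
    rcases hv with rfl | rfl | hv
    · rw [hpr]; exact mem_insert_self _ _
    · rw [hpz]; exact mem_insert_self _ _
    · exact hNp v hv
  · intro w hw
    have : (insert r (insert z N)).filter (fun v => p v = w) = N.filter (fun v => p v = w) := by
      ext v
      rw [mem_filter, mem_filter, mem_insert, mem_insert]
      constructor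
      · rintro ⟨rfl | rfl | h, h1⟩
        · exact (hw (h1 ▸ hpr)).elim
        · exact (hw (h1 ▸ hpz)).elim
        · exact ⟨h, h1⟩
      · rintro ⟨h, h1⟩
        exact ⟨Or.inr (Or.inr h), h1⟩
    rw [this]
    exact hNe w

omit [Fintype V] in
theorem card_ins {r z : V} {N : Finset V} (hrz : z ≠ r) (hN : ∀ v ∈ N, v ≠ r ∧ v ≠ z) :
    (insert r (insert z N)).card = 2 + N.card := by
  rw [card_insert_of_notMem, card_insert_of_notMem]
  · ring
  · intro h; exact (hN z h).2 rfl
  · rw [mem_insert]
    rintro (h | h)
    · exact hrz h.symm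
    · exact (hN r h).1 rfl

theorem plab_twoCenters (hT : T.IsTree) (r z : V) (hodd : ∀ v, Odd (T.degree v)) {n : ℕ}
    (hc : Fintype.card V = 2 ^ n) (hzr : z ≠ r) (hpz : par hT r z = r)
    (hin : ∀ v, T.degree v ≠ 1 → par hT r v = r ∨ par hT r v = z) :
    PLab (par hT r) r univ (Fin n → ZMod 2) := by
  set p := par hT r with hp
  have hpr : p r = r := par_root hT r
  set N1 : Finset V := univ.filter (fun v => (v ≠ r ∧ v ≠ z) ∧ (p v = r ∨ p v = z)) with hN1
  have hN1m : ∀ v, v ∈ N1 ↔ (v ≠ r ∧ v ≠ z) ∧ (p v = r ∨ p v = z) := by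
    intro v; rw [hN1, mem_filter]; simp
  have hun := closed_univ hT r hodd
  have hN1e : EvenFib p N1 := by
    intro w
    by_cases hwz : w = z
    · have : N1.filter (fun v => p v = w) = univ.filter (fun v => p v = w) := by
        ext v
        simp only [hN1, mem_filter, mem_univ, true_and]
        constructor
        · exact fun h => h.2
        · intro h
          refine ⟨⟨⟨?_, ?_⟩, Or.inr (h.trans hwz)⟩, h⟩
          · rintro rfl
            rw [hpr] at h
            exact hzr (hwz ▸ h.symm)
          · rintro rfl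
            rw [hpz] at h
            exact hzr (hwz ▸ h.symm)
      rw [this]
      exact hun.even w (hwz ▸ hzr)
    · by_cases hwr : w = r
      · subst hwr
        have h1 : N1.filter (fun v => p v = w) = ((univ.filter (fun v => p v = w)).erase w).erase z := by
          ext v
          rw [mem_filter, hN1m, mem_erase, mem_erase, mem_filter]
          constructor
          · rintro ⟨⟨⟨h1, h2⟩, _⟩, h3⟩
            exact ⟨h2, h1, mem_univ v, h3⟩
          · rintro ⟨h2, h1, _, h3⟩
            exact ⟨⟨⟨h1, h2⟩, Or.inl h3⟩, h3⟩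
        have h2 : ((univ.filter (fun v => p v = w)).erase w).card = T.degree w := by
          rw [← neighborFinset_root hT w, SimpleGraph.card_neighborFinset_eq_degree]
        rw [h1, card_erase_of_mem (by rw [mem_erase, mem_filter]; exact ⟨hzr, mem_univ z, hpz⟩), h2]
        obtain ⟨t, ht⟩ := hodd w
        exact ⟨t, by omega⟩
      · have : N1.filter (fun v => p v = w) = ∅ := by
          apply filter_false_of_mem
          intro v hv h
          rcases ((hN1m v).1 hv).2 with h1 | h1
          · exact hwr (h.symm.trans h1)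
          · exact hwz (h.symm.trans h1)
        rw [this]; simp
  have hN1rz : ∀ v ∈ N1, v ≠ r ∧ v ≠ z := fun v hv => ((hN1m v).1 hv).1
  have hN1p : ∀ v ∈ N1, p v = r ∨ p v = z := fun v hv => ((hN1m v).1 hv).2
  -- the initial set
  have hE00cl : Closed p r (insert r (insert z (∅ : Finset V))) :=
    closed_union hpr hpz (by simp) (fun w => by simp) (by simp)
  have hE00c : (insert r (insert z (∅ : Finset V))).card = 2 ^ 1 := by
    rw [card_ins hzr (by simp)]; simp
  have hE00lab : PLab p r (insert r (insert z (∅ : Finset V))) (Fin 1 → ZMod 2) := by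
    have hJ : Fintype.card (Fin 1 → ZMod 2) = 2 := by simp
    refine exists_plab (add_self_fin 1) hpr (d := fun v => T.dist r v)
      (fun v hv => dist_par hT r v hv) _ _ rfl hE00cl ?_ ?_
    · rw [hJ, hE00c]; norm_num
    · rw [hJ, hE00c]; norm_num
  -- sets of the form {r, z} ∪ Z with Z ⊆ N1 even
  have hstep : ∀ (Z : Finset V), Z ⊆ N1 → EvenFib p Z → Closed p r (insert r (insert z Z)) := by
    intro Z hZ hZe
    refine closed_union hpr hpz (fun v hv => hN1rz v (hZ hv)) hZe ?_
    intro v hv
    rcases hN1p v (hZ hv) with h | h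
    · rw [h]; exact mem_insert_self _ _
    · rw [h]; exact mem_insert_of_mem (mem_insert_self _ _)
  have hsub0 : ∀ Z : Finset V, insert r (insert z (∅ : Finset V)) ⊆ insert r (insert z Z) :=
    fun Z => insert_subset_insert _ (insert_subset_insert _ (empty_subset _))
  have hpE00 : ∀ (Z : Finset V), Z ⊆ N1 → ∀ v ∈ insert r (insert z Z),
      p v ∈ insert r (insert z (∅ : Finset V)) := by
    intro Z hZ v hv
    rw [mem_insert, mem_insert] at hv
    rcases hv with rfl | rfl | hv
    · rw [hpr]; exact mem_insert_self _ _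
    · rw [hpz]; exact mem_insert_self _ _
    · rcases hN1p v (hZ hv) with h | h
      · rw [h]; exact mem_insert_self _ _
      · rw [h]; exact mem_insert_of_mem (mem_insert_self _ _)
  set A1 := N1.filter (fun v => T.degree v ≠ 1) with hA1
  have hA1N : A1 ⊆ N1 := filter_subset _ _
  have hclass : ∀ v, T.degree v ≠ 1 → v = r ∨ v = z ∨ v ∈ A1 := by
    intro v hv
    by_cases h1 : v = r
    · exact Or.inl h1
    · by_cases h2 : v = z
      · exact Or.inr (Or.inl h2)
      · exact Or.inr (Or.inr (mem_filter.2 ⟨(hN1m v).2 ⟨⟨h1, h2⟩, hin v hv⟩, hv⟩))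
  obtain ⟨M, hMN, hAM, hAMe, hMc, hMp, hMex⟩ := exists_evenClosure hN1e hA1N
  obtain ⟨B, hBA, hBe, hBc, hBex⟩ := exists_evenInterior (p := p) A1
  have ho : (oddPar p A1).card ≤ 2 := by
    have h1 : oddPar p A1 ⊆ {r, z} := by
      intro w hw
      have h2 := (mem_filter.1 hw).1
      obtain ⟨v, hv, rfl⟩ := mem_image.1 h2
      rw [mem_insert, mem_singleton]
      exact hN1p v (hA1N hv)
    exact (card_le_card h1).trans card_le_two
  have hAMN : A1 ∪ M ⊆ N1 := union_subset hA1N hMN
  have hAMc : (A1 ∪ M).card = A1.card + (oddPar p A1).card := by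
    rw [card_union_of_disjoint hAM, hMc]
  have hAMle : (A1 ∪ M).card ≤ N1.card := card_le_card hAMN
  set k := Nat.log 2 (2 + N1.card) with hk
  have hk1 : 2 ^ k ≤ 2 + N1.card := Nat.pow_log_le_self 2 (by omega)
  have hk2 : 2 + N1.card < 2 ^ (k + 1) := Nat.lt_pow_succ_log_self (by norm_num) _
  have hkpos : 1 ≤ k := by
    by_contra hcon
    have : k = 0 := by omega
    rw [this] at hk2
    omega
  have hpow : 2 ^ (k + 1) = 2 * 2 ^ k := by ring
  obtain ⟨K, hK⟩ : ∃ K, 2 ^ k = 2 * K := by
    obtain ⟨j, hj⟩ : ∃ j, k = j + 1 := ⟨k - 1, by omega⟩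
    exact ⟨2 ^ j, by rw [hj]; ring⟩
  obtain ⟨a, ha⟩ := hAMe.card_even
  obtain ⟨b, hb⟩ := hBe.card_even
  obtain ⟨m, hm⟩ := hN1e.card_even
  by_cases hcase : 2 + (A1 ∪ M).card ≤ 2 ^ k
  · -- all non-leaves fit
    obtain ⟨Y, hYN, hYc, hYe⟩ := exists_evenFib_subset (hN1e.sdiff hAMe hAMN) (K - 1 - a)
      (by rw [card_sdiff_of_subset hAMN]; omega)
    have hdis : Disjoint (A1 ∪ M) Y := by
      rw [Finset.disjoint_right]
      intro v hv hv'
      exact (mem_sdiff.1 (hYN hv)).2 hv'
    have hZN : (A1 ∪ M) ∪ Y ⊆ N1 := union_subset hAMN (hYN.trans sdiff_subset)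
    have hZc : ((A1 ∪ M) ∪ Y).card = 2 ^ k - 2 := by
      rw [card_union_of_disjoint hdis, hYc]; omega
    refine plab_stage hT r hodd hc (k := 1) (k' := k) le_rfl hkpos hE00cl hE00c hE00lab
      (hsub0 ((A1 ∪ M) ∪ Y)) (hstep _ hZN (hAMe.union hYe hdis)) ?_ (hpE00 _ hZN) ?_
    · rw [card_ins hzr (fun v hv => hN1rz v (hZN hv)), hZc]; omega
    · intro v hv
      rw [mem_insert, mem_insert, mem_union, mem_union]
      rcases hclass v hv with h | h | h
      · exact Or.inl h
      · exact Or.inr (Or.inl h)
      · exact Or.inr (Or.inr (Or.inl (Or.inl h)))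
  · -- two stages
    push Not at hcase
    obtain ⟨Z, hZN, hZe, hZc, l, hl, hZl⟩ : ∃ Z ⊆ N1, EvenFib p Z ∧ Z.card = 2 ^ k - 2 ∧
        ∃ l, 2 + 2 * l ≤ N1.card ∧ Z.card ≤ (Z.filter (fun v => T.degree v ≠ 1)).card + l := by
      by_cases hcase2 : 2 ^ k - 2 ≤ B.card
      · obtain ⟨Z, hZB, hZc, hZe⟩ := exists_evenFib_subset hBe (K - 1) (by omega)
        refine ⟨Z, hZB.trans (hBA.trans hA1N), hZe, by omega, 0, by omega, ?_⟩
        rw [filter_true_of_mem]
        · omega
        · intro v hv
          exact (mem_filter.1 (hBA (hZB hv))).2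
      · push Not at hcase2
        have ho2 : (oddPar p A1).card = 2 := by omega
        have hBK : B.card + 2 = 2 ^ k - 2 := by omega
        obtain ⟨w, hw⟩ : (oddPar p A1).Nonempty := by rw [← card_pos]; omega
        obtain ⟨x, hx, hpx⟩ := hBex w hw
        obtain ⟨y, hy, hpy⟩ := hMex w hw
        rw [mem_sdiff] at hx
        have hxy : x ≠ y := by
          rintro rfl
          exact (Finset.disjoint_left.1 hAM hx.1) hy
        have hyA : y ∉ A1 := fun h => (Finset.disjoint_left.1 hAM h) hy
        have hdis : Disjoint B {x, y} := by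
          rw [Finset.disjoint_right]
          intro v hv hv'
          rw [mem_insert, mem_singleton] at hv
          rcases hv with rfl | rfl
          · exact hx.2 hv'
          · exact hyA (hBA hv')
        have hAc2 : 2 ≤ A1.card := by
          have := card_oddPar_le p A1
          omega
        refine ⟨B ∪ {x, y}, ?_, hBe.union (evenFib_pair hxy (hpx.trans hpy.symm)) hdis, ?_, 1, ?_, ?_⟩
        · intro v hv
          rw [mem_union, mem_insert, mem_singleton] at hv
          rcases hv with hv | rfl | rfl
          · exact hA1N (hBA hv)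
          · exact hA1N hx.1
          · exact hMN hy
        · rw [card_union_of_disjoint hdis, card_pair hxy]; omega
        · omega
        · have h1 : insert x B ⊆ (B ∪ {x, y}).filter (fun v => T.degree v ≠ 1) := by
            intro v hv
            rw [mem_insert] at hv
            rw [mem_filter, mem_union, mem_insert]
            rcases hv with rfl | hv
            · exact ⟨Or.inr (Or.inl rfl), (mem_filter.1 hx.1).2⟩
            · exact ⟨Or.inl hv, (mem_filter.1 (hBA hv)).2⟩
          have h2 := card_le_card h1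
          rw [card_insert_of_notMem hx.2] at h2
          rw [card_union_of_disjoint hdis, card_pair hxy]
          omega
    -- first stage
    have hE0cl := hstep Z hZN hZe
    have hZrz : ∀ v ∈ Z, v ≠ r ∧ v ≠ z := fun v hv => hN1rz v (hZN hv)
    have h2k : 2 ≤ 2 ^ k := by
      calc 2 = 2 ^ 1 := by norm_num
        _ ≤ 2 ^ k := Nat.pow_le_pow_right (by norm_num) hkpos
    have hE0c : (insert r (insert z Z)).card = 2 ^ k := by
      rw [card_ins hzr hZrz, hZc]; omega
    have hE0lab : PLab p r (insert r (insert z Z)) (Fin k → ZMod 2) :=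
      plab_extend' hE00cl hE0cl (hsub0 Z) le_rfl hE00c hE0c (hpE00 Z hZN) hE00lab
    -- grandchildren
    set N2 : Finset V := univ.filter (fun v => p v ∈ Z) with hN2
    have hN2e : EvenFib p N2 := by
      intro w
      by_cases hw : w ∈ Z
      · have : N2.filter (fun v => p v = w) = univ.filter (fun v => p v = w) := by
          ext v
          simp only [hN2, mem_filter, mem_univ, true_and]
          exact ⟨fun h => h.2, fun h => ⟨h ▸ hw, h⟩⟩
        rw [this]
        exact hun.even w (hZrz w hw).1
      · have : N2.filter (fun v => p v = w) = ∅ := by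
          apply filter_false_of_mem
          intro v hv h
          exact hw (h ▸ (mem_filter.1 hv).2)
        rw [this]; simp
    have hN2c : 2 * (Z.filter (fun v => T.degree v ≠ 1)).card ≤ N2.card := by
      have h3 : N2.card = ∑ w ∈ Z, (N2.filter (fun v => p v = w)).card :=
        card_eq_sum_card_fiberwise (fun v hv => (mem_filter.1 hv).2)
      rw [h3]
      calc 2 * (Z.filter (fun v => T.degree v ≠ 1)).card
          = ∑ w ∈ Z.filter (fun v => T.degree v ≠ 1), 2 := by
            rw [sum_const, smul_eq_mul, mul_comm]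
        _ ≤ ∑ w ∈ Z.filter (fun v => T.degree v ≠ 1), (N2.filter (fun v => p v = w)).card := by
            apply sum_le_sum
            intro w hw
            rw [mem_filter] at hw
            have h4 : N2.filter (fun v => p v = w) = univ.filter (fun v => p v = w) := by
              ext v
              simp only [hN2, mem_filter, mem_univ, true_and]
              exact ⟨fun h => h.2, fun h => ⟨h ▸ hw.1, h⟩⟩
            rw [h4]
            exact two_le_children hT r w hodd (hZrz w hw.1).1 hw.2
        _ ≤ ∑ w ∈ Z, (N2.filter (fun v => p v = w)).card :=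
            sum_le_sum_of_subset (filter_subset _ _)
    obtain ⟨Y, hYN, hYc, hYe⟩ := exists_evenFib_subset hN2e (2 ^ k - 1 - m) (by omega)
    have hYp : ∀ v ∈ Y, p v ∈ Z := fun v hv => (mem_filter.1 (hYN hv)).2
    have hdis : Disjoint N1 Y := by
      rw [Finset.disjoint_left]
      intro v hv hv'
      have h1 := hYp v hv'
      rcases hN1p v hv with h | h
      · exact (hZrz _ h1).1 h
      · exact (hZrz _ h1).2 h
    have hYrz : ∀ v ∈ Y, v ≠ r ∧ v ≠ z := by
      intro v hv
      have h1 := hYp v hv
      constructor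
      · rintro rfl
        exact (hZrz _ h1).1 hpr
      · rintro rfl
        exact (hZrz _ h1).1 hpz
    have hrz : ∀ v ∈ N1 ∪ Y, v ≠ r ∧ v ≠ z := by
      intro v hv
      rw [mem_union] at hv
      rcases hv with hv | hv
      · exact hN1rz v hv
      · exact hYrz v hv
    have hE1p : ∀ v ∈ insert r (insert z (N1 ∪ Y)), p v ∈ insert r (insert z Z) := by
      intro v hv
      rw [mem_insert, mem_insert, mem_union] at hv
      rw [mem_insert, mem_insert]
      rcases hv with rfl | rfl | hv | hv
      · exact Or.inl hpr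
      · exact Or.inl hpz
      · rcases hN1p v hv with h | h
        · exact Or.inl h
        · exact Or.inr (Or.inl h)
      · exact Or.inr (Or.inr (hYp v hv))
    have hsubE : insert r (insert z Z) ⊆ insert r (insert z (N1 ∪ Y)) :=
      insert_subset_insert _ (insert_subset_insert _ (hZN.trans subset_union_left))
    have hE1cl : Closed p r (insert r (insert z (N1 ∪ Y))) :=
      closed_union hpr hpz hrz (hN1e.union hYe hdis) (fun v hv =>
        hsubE (hE1p v (mem_insert_of_mem (mem_insert_of_mem hv))))
    refine plab_stage hT r hodd hc (k := k) (k' := k + 1) hkpos (by omega) hE0cl hE0c hE0lab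
      hsubE hE1cl ?_ hE1p ?_
    · rw [card_ins hzr hrz, card_union_of_disjoint hdis, hYc]; omega
    · intro v hv
      rw [mem_insert, mem_insert, mem_union]
      rcases hclass v hv with h | h | h
      · exact Or.inl h
      · exact Or.inr (Or.inl h)
      · exact Or.inr (Or.inr (Or.inl (hA1N h)))

end two

end Pool.Agent.H57.SS
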